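import Pool.Agent.Lib.MP_9cae81_pr.Seq

open Finset Filter
open scoped BigOperators Topology

namespace Pool.Agent.Lib.MP_9cae81_pr

/-- `κ = Γ(2/3)² / Γ(1/3)` -/
noncomputable def kap : ℝ := Real.Gamma (2 / 3) ^ 2 / Real.Gamma (1 / 3)

lemma prod_gs (n : ℕ) : ∏ j ∈ range (n + 1), ((2 / 3 : ℝ) + j) =
    (n.factorial : ℝ) * gs n * (n + 2 / 3) := by
  induction n with
  | zero => simp [gs]
  | succ n ih =>
    rw [Finset.prod_range_succ, ih, Nat.factorial_succ]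
    have h := gs_succ n
    push_cast
    have h2 : ((n:ℝ) + 1) * (n.factorial : ℝ) * gs (n + 1) = (n.factorial : ℝ) *
        ((n + 2 / 3) * gs n) := by rw [← h]; ring
    rw [h2]
    ring

lemma prod_aa (n : ℕ) : ∏ j ∈ range (n + 1), ((4 / 3 : ℝ) + j) =
    (n.factorial : ℝ) * aa n * (n + 4 / 3) := by
  induction n with
  | zero => simp [aa_zero]
  | succ n ih =>
    rw [Finset.prod_range_succ, ih, Nat.factorial_succ]
    have h := aa_succ n
    push_cast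
    have h2 : ((n:ℝ) + 1) * (n.factorial : ℝ) * aa (n + 1) = (n.factorial : ℝ) *
        ((n + 4 / 3) * aa n) := by rw [← h]; ring
    rw [h2]
    ring

lemma gs_eq {n : ℕ} (hn : 0 < n) :
    gs n = (n:ℝ) ^ (2 / 3 : ℝ) / ((n + 2 / 3) * Real.GammaSeq (2 / 3) n) := by
  unfold Real.GammaSeq
  rw [prod_gs]
  have h1 := gs_pos n
  have h2 : (0:ℝ) < (n.factorial : ℝ) := by exact_mod_cast n.factorial_pos
  have h3 : (0:ℝ) < (n:ℝ) ^ (2 / 3 : ℝ) := by positivity
  field_simp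

lemma aa_eq {n : ℕ} (hn : 0 < n) :
    aa n = (n:ℝ) ^ (4 / 3 : ℝ) / ((n + 4 / 3) * Real.GammaSeq (4 / 3) n) := by
  unfold Real.GammaSeq
  rw [prod_aa]
  have h1 := aa_pos n
  have h2 : (0:ℝ) < (n.factorial : ℝ) := by exact_mod_cast n.factorial_pos
  have h3 : (0:ℝ) < (n:ℝ) ^ (4 / 3 : ℝ) := by positivity
  field_simp

lemma tendsto_ratio (a : ℝ) : Tendsto (fun n : ℕ => (n:ℝ) / (n + a)) atTop (𝓝 1) := by
  have h : Tendsto (fun n : ℕ => (n:ℝ) / (n + a)) atTop (𝓝 1) := by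
    have := tendsto_natCast_div_add_atTop (𝕜 := ℝ) a
    exact this
  exact h

lemma tendsto_gs : Tendsto (fun n : ℕ => (n:ℝ) ^ (1 / 3 : ℝ) * gs n) atTop
    (𝓝 (1 / Real.Gamma (2 / 3))) := by
  have hG : 0 < Real.Gamma (2 / 3) := Real.Gamma_pos_of_pos (by norm_num)
  have h1 := (tendsto_ratio (2 / 3)).div (Real.GammaSeq_tendsto_Gamma (2 / 3)) hG.ne'
  refine h1.congr' ?_
  filter_upwards [eventually_gt_atTop 0] with n hn
  have hn' : (0:ℝ) < n := by exact_mod_cast hn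
  rw [gs_eq hn, ← mul_div_assoc, ← Real.rpow_add hn']
  norm_num
  rw [div_div]

lemma tendsto_gs_cube : Tendsto (fun n : ℕ => ((n:ℝ) + 1) * gs n ^ 3) atTop
    (𝓝 (1 / Real.Gamma (2 / 3) ^ 3)) := by
  have h1 := (tendsto_gs.pow 3)
  have h2 : Tendsto (fun n : ℕ => ((n:ℝ) + 1) / n) atTop (𝓝 1) := by
    have h := (tendsto_ratio 1).inv₀ (by norm_num)
    simp only [inv_div, inv_one] at h
    exact h
  have h3 := h2.mul h1
  rw [one_mul, div_pow, one_pow] at h3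
  refine h3.congr' ?_
  filter_upwards [eventually_gt_atTop 0] with n hn
  have hn' : (0:ℝ) < n := by exact_mod_cast hn
  rw [mul_pow, ← Real.rpow_natCast ((n:ℝ) ^ (1 / 3 : ℝ)) 3, ← Real.rpow_mul hn'.le]
  norm_num
  field_simp

lemma tendsto_ee : Tendsto ee atTop (𝓝 (1 / (Real.Gamma (2 / 3) * Real.Gamma (4 / 3)))) := by
  have hG : 0 < Real.Gamma (2 / 3) := Real.Gamma_pos_of_pos (by norm_num)
  have hG' : 0 < Real.Gamma (4 / 3) := Real.Gamma_pos_of_pos (by norm_num)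
  have h1 := ((tendsto_ratio (2 / 3)).mul (tendsto_ratio (4 / 3))).div
    ((Real.GammaSeq_tendsto_Gamma (2 / 3)).mul (Real.GammaSeq_tendsto_Gamma (4 / 3)))
    (mul_pos hG hG').ne'
  rw [one_mul] at h1
  refine h1.congr' ?_
  filter_upwards [eventually_gt_atTop 0] with n hn
  have hn' : (0:ℝ) < n := by exact_mod_cast hn
  unfold ee
  rw [gs_eq hn, aa_eq hn, div_mul_div_comm, ← Real.rpow_add hn']
  norm_num
  rw [div_mul_div_comm, div_div, ← sq]
  congr 1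
  ring

lemma kap_eq : kap = (1 / (Real.Gamma (2 / 3) * Real.Gamma (4 / 3))) / 3 *
    Real.Gamma (2 / 3) ^ 3 := by
  have hG : 0 < Real.Gamma (2 / 3) := Real.Gamma_pos_of_pos (by norm_num)
  have hG' : 0 < Real.Gamma (1 / 3) := Real.Gamma_pos_of_pos (by norm_num)
  have h1 : Real.Gamma (4 / 3) = 1 / 3 * Real.Gamma (1 / 3) := by
    rw [← Real.Gamma_add_one (by norm_num)]
    norm_num
  rw [h1, kap]
  field_simp

/-- the choice of the truncation -/
lemma exists_J {κ' : ℝ} (hκ : kap < κ') :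
    ∃ J : ℕ, 0 < J ∧ NN J (gT J) < κ' * ∑ s ∈ range J, (gT J s) ^ 3 := by
  have hG : 0 < Real.Gamma (2 / 3) := Real.Gamma_pos_of_pos (by norm_num)
  set L := 1 / (Real.Gamma (2 / 3) * Real.Gamma (4 / 3)) with hL
  set C := 1 / Real.Gamma (2 / 3) ^ 3 with hC
  have hneg : L / 3 - κ' * C < 0 := by
    have h1 : kap * C = L / 3 := by
      rw [kap_eq, ← hL, hC]
      field_simp
    have hCpos : 0 < C := by positivity
    nlinarith
  have h1 : Tendsto (fun i : ℕ => ee i / 3 - κ' * (((i:ℝ) + 1) * gs i ^ 3)) atTop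
      (𝓝 (L / 3 - κ' * C)) := (tendsto_ee.div_const 3).sub (tendsto_gs_cube.const_mul κ')
  set ε := -(L / 3 - κ' * C) / 2 with hε
  have hεpos : 0 < ε := by rw [hε]; linarith
  have h2 := h1.eventually (gt_mem_nhds (show L / 3 - κ' * C < -ε by rw [hε]; linarith))
  obtain ⟨i0, hi0⟩ := eventually_atTop.1 h2
  -- the summand
  set T : ℕ → ℝ := fun i => ee i / (3 * ((i:ℝ) + 1)) - κ' * gs i ^ 3 with hT
  have hTi : ∀ i ≥ i0, T i ≤ -ε * (1 / ((i:ℝ) + 1)) := by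
    intro i hi
    have h3 := hi0 i hi
    have h4 : T i = (ee i / 3 - κ' * (((i:ℝ) + 1) * gs i ^ 3)) * (1 / ((i:ℝ) + 1)) := by
      rw [hT]
      simp only
      field_simp
    rw [h4]
    exact mul_le_mul_of_nonneg_right h3.le (by positivity)
  have hbound : ∀ J ≥ i0, ∑ i ∈ range J, T i ≤ (∑ i ∈ range i0, T i) + ε *
      (∑ i ∈ range i0, (1 / ((i:ℝ) + 1))) - ε * ∑ i ∈ range J, (1 / ((i:ℝ) + 1)) := by
    intro J hJ
    induction J, hJ using Nat.le_induction with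
    | base => linarith
    | succ J hJ ih =>
      rw [Finset.sum_range_succ, Finset.sum_range_succ]
      have := hTi J hJ
      linarith
  have h5 := Real.tendsto_sum_range_one_div_nat_succ_atTop
  have h6 := (tendsto_atTop.1 h5 (((∑ i ∈ range i0, T i) + ε *
      (∑ i ∈ range i0, (1 / ((i:ℝ) + 1))) + 2) / ε))
  obtain ⟨J, hJ1, hJ2, hJ3⟩ := (h6.and ((eventually_ge_atTop i0).and
    (eventually_gt_atTop 0))).exists
  refine ⟨J, hJ3, ?_⟩
  have h7 := hbound J hJ2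
  rw [div_le_iff₀ hεpos] at hJ1
  have h8 := NN_le J
  have h9 : ∑ s ∈ range J, (gT J s) ^ 3 = ∑ s ∈ range J, gs s ^ 3 := by
    apply Finset.sum_congr rfl
    intro s hs
    unfold gT
    rw [if_pos (mem_range.1 hs)]
  rw [h9]
  have h10 : ∑ i ∈ range J, T i = ∑ i ∈ range J, ee i / (3 * ((i:ℝ) + 1)) -
      κ' * ∑ s ∈ range J, gs s ^ 3 := by
    rw [hT, Finset.sum_sub_distrib, ← Finset.mul_sum]
  linarith

/-- monotone approximation of `1/Γ(2/3)³` -/
lemma gs_cube_mono : Monotone (fun n : ℕ => ((n:ℝ) + 1 / 3) * gs n ^ 3) := by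
  apply monotone_nat_of_le_succ
  intro n
  have h := gs_succ n
  have hg := gs_pos n
  have h2 : ((n:ℝ) + 1) ^ 3 * (((n + 1 : ℕ) : ℝ) + 1 / 3) * gs (n + 1) ^ 3 =
      ((n:ℝ) + 4 / 3) * (n + 2 / 3) ^ 3 * gs n ^ 3 := by
    calc _ = (((n + 1 : ℕ) : ℝ) + 1 / 3) * (((n:ℝ) + 1) * gs (n + 1)) ^ 3 := by ring
      _ = _ := by rw [h]; push_cast; ring
  have h3 : ((n:ℝ) + 1) ^ 3 * (((n:ℝ) + 1 / 3) * gs n ^ 3) ≤
      ((n:ℝ) + 4 / 3) * (n + 2 / 3) ^ 3 * gs n ^ 3 := by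
    rw [← mul_assoc]
    apply mul_le_mul_of_nonneg_right _ (by positivity)
    have : ((n:ℝ) + 4 / 3) * (n + 2 / 3) ^ 3 - ((n:ℝ) + 1) ^ 3 * ((n:ℝ) + 1 / 3) =
        2 / 27 * n + 5 / 81 := by ring
    have hn : (0:ℝ) ≤ n := by positivity
    linarith
  rw [← h2, mul_assoc] at h3
  exact le_of_mul_le_mul_left h3 (by positivity)

lemma gs_cube_le (n : ℕ) : ((n:ℝ) + 1 / 3) * gs n ^ 3 ≤ 1 / Real.Gamma (2 / 3) ^ 3 := by
  have h1 : Tendsto (fun n : ℕ => ((n:ℝ) + 1 / 3) * gs n ^ 3) atTop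
      (𝓝 (1 / Real.Gamma (2 / 3) ^ 3)) := by
    have h2 : Tendsto (fun n : ℕ => ((n:ℝ) + 1 / 3) / (n + 1)) atTop (𝓝 1) := by
      have h3 := (tendsto_ratio 1).div (tendsto_ratio (1 / 3)) (by norm_num)
      rw [div_one] at h3
      refine h3.congr' ?_
      filter_upwards [eventually_gt_atTop 0] with n hn
      have hn' : (0:ℝ) < n := by exact_mod_cast hn
      simp only [Pi.div_apply]
      field_simp
    have h4 := h2.mul tendsto_gs_cube
    rw [one_mul] at h4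
    refine h4.congr' (Eventually.of_forall fun n => ?_)
    have : ((n:ℝ) + 1) ≠ 0 := by positivity
    field_simp
  exact gs_cube_mono.ge_of_tendsto h1 n

lemma kap_pos : 0 < kap := by
  have hG : 0 < Real.Gamma (2 / 3) := Real.Gamma_pos_of_pos (by norm_num)
  have hG' : 0 < Real.Gamma (1 / 3) := Real.Gamma_pos_of_pos (by norm_num)
  unfold kap
  positivity

lemma kap_lt : kap < 0.6846 := by
  have hG : 0 < Real.Gamma (2 / 3) := Real.Gamma_pos_of_pos (by norm_num)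
  have hG' : 0 < Real.Gamma (1 / 3) := Real.Gamma_pos_of_pos (by norm_num)
  have h1 : Real.Gamma (1 / 3) * Real.Gamma (2 / 3) = 2 * Real.pi / √3 := by
    have h := Real.Gamma_mul_Gamma_one_sub (1 / 3)
    rw [show (1:ℝ) - 1 / 3 = 2 / 3 by norm_num, show Real.pi * (1 / 3) = Real.pi / 3 by ring,
      Real.sin_pi_div_three] at h
    rw [h]
    field_simp
  have hk : kap = Real.Gamma (2 / 3) ^ 3 * √3 / (2 * Real.pi) := by
    have h3 : 0 < √(3:ℝ) := by positivity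
    have h2 : Real.Gamma (1 / 3) = 2 * Real.pi / (√3 * Real.Gamma (2 / 3)) := by
      rw [eq_div_iff (by positivity)]
      rw [show Real.Gamma (1 / 3) * (√3 * Real.Gamma (2 / 3)) =
        √3 * (Real.Gamma (1 / 3) * Real.Gamma (2 / 3)) by ring, h1]
      field_simp
    rw [kap, h2]
    field_simp
  have h2 := gs_cube_le 20
  have hval : (0.270558 : ℝ) ≤ gs 20 := by
    simp only [gs]
    norm_num
  have hc : (0.270558 : ℝ) ^ 3 ≤ gs 20 ^ 3 := pow_le_pow_left₀ (by norm_num) hval 3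
  have h5 : 0 < Real.Gamma (2 / 3) ^ 3 := by positivity
  have h6 : (((20:ℕ):ℝ) + 1 / 3) * (0.270558 : ℝ) ^ 3 ≤ 1 / Real.Gamma (2 / 3) ^ 3 :=
    le_trans (mul_le_mul_of_nonneg_left hc (by positivity)) h2
  rw [le_div_iff₀ h5] at h6
  have h7 : √(3:ℝ) < 1.73206 := by
    rw [Real.sqrt_lt' (by norm_num)]
    norm_num
  have h8 : (3.14159 : ℝ) < Real.pi := by
    have := Real.pi_gt_d6
    linarith
  rw [hk, div_lt_iff₀ (by positivity)]
  have h9 : Real.Gamma (2 / 3) ^ 3 * √3 ≤ Real.Gamma (2 / 3) ^ 3 * 1.73206 :=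
    mul_le_mul_of_nonneg_left h7.le h5.le
  have h10 : Real.Gamma (2 / 3) ^ 3 ≤ 2.4832 := by
    norm_num at h6
    linarith
  nlinarith

end Pool.Agent.Lib.MP_9cae81_pr
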