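import Pool.Agent.Lib.MP_9cae81_pr.Mg.G001

open Finset Filter
open scoped BigOperators Topology

namespace Pool.Agent.Lib.MP_9cae81_pr

lemma costC_le {n : ℕ} (J : ℕ) (c : Cl n) (σ : Fin n → Bool) : costC J c σ ≤ J := by
  rcases c with c | c <;> simp only [costC, costK] <;> split_ifs <;> omega

lemma PsiR_le_add {n : ℕ} (H h : (Fin n → Bool) → ℕ) : PsiR H ≤ PsiR (H + h) := by
  unfold PsiR
  exact_mod_cast Psi_mono fun σ => Nat.le_add_right _ _

lemma PsiR_add_le {n J : ℕ} (H h : (Fin n → Bool) → ℕ) (hh : ∀ σ, h σ ≤ J) :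
    PsiR (H + h) ≤ PsiR H + J := by
  unfold PsiR
  obtain ⟨σ, hσ⟩ := exists_Psi H
  have h1 : Psi (H + h) ≤ Psi H + J := by
    refine (Psi_le _ σ).trans ?_
    rw [Pi.add_apply, hσ]
    exact Nat.add_le_add_left (hh σ) _
  exact_mod_cast h1

lemma PsiR_zero {n : ℕ} : PsiR (0 : (Fin n → Bool) → ℕ) = 0 := by
  unfold PsiR
  have : Psi (0 : (Fin n → Bool) → ℕ) = 0 := by
    have := Psi_le (0 : (Fin n → Bool) → ℕ) (fun _ => true)
    simpa using this
  rw [this]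
  simp

/-- the total weight of a formula -/
noncomputable def WW {n m : ℕ} (p : ℝ) (F : Fin m → Cl n) : ℝ := ∏ i, wt p (F i)

lemma WW_nonneg {n m : ℕ} {p : ℝ} (h0 : 0 ≤ p) (h1 : p ≤ 1) (F : Fin m → Cl n) : 0 ≤ WW p F :=
  Finset.prod_nonneg fun i _ => wt_nonneg h0 h1 (F i)

lemma opC_pow_eq {n : ℕ} (p : ℝ) (J m : ℕ) (Φ : ((Fin n → Bool) → ℕ) → ℝ)
    (H : (Fin n → Bool) → ℕ) :
    (opC n p J ^ m) Φ H = ∑ F : Fin m → Cl n, WW p F * Φ (H + ∑ i, costC J (F i)) :=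
  avg_pow_eq _ _ _ _ _

lemma sum_WW {n : ℕ} (hn : 3 ≤ n) (p : ℝ) (m : ℕ) : ∑ F : Fin m → Cl n, WW p F = 1 := by
  have h1 := pow_one' (opC_one hn p 1) m
  have h2 := congrFun h1 0
  rw [opC_pow_eq] at h2
  simpa [one'] using h2

lemma opC_pow_between {n : ℕ} (hn : 3 ≤ n) {p : ℝ} (h0 : 0 ≤ p) (h1 : p ≤ 1) (J m : ℕ)
    (H h : (Fin n → Bool) → ℕ) (hh : ∀ σ, h σ ≤ J) :
    (opC n p J ^ m) PsiR H ≤ (opC n p J ^ m) PsiR (H + h) ∧
      (opC n p J ^ m) PsiR (H + h) ≤ (opC n p J ^ m) PsiR H + J := by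
  rw [opC_pow_eq, opC_pow_eq]
  have e : ∀ F : Fin m → Cl n, H + h + ∑ i, costC J (F i) = (H + ∑ i, costC J (F i)) + h :=
    fun F => add_right_comm _ _ _
  constructor
  · apply Finset.sum_le_sum
    intro F _
    apply mul_le_mul_of_nonneg_left _ (WW_nonneg h0 h1 F)
    rw [e F]
    exact PsiR_le_add _ _
  · have h2 : ∑ F : Fin m → Cl n, WW p F * PsiR (H + ∑ i, costC J (F i)) + (J:ℝ) =
        ∑ F : Fin m → Cl n, WW p F * (PsiR (H + ∑ i, costC J (F i)) + J) := by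
      simp_rw [mul_add, Finset.sum_add_distrib]
      rw [← Finset.sum_mul, sum_WW hn, one_mul]
    rw [h2]
    apply Finset.sum_le_sum
    intro F _
    apply mul_le_mul_of_nonneg_left _ (WW_nonneg h0 h1 F)
    rw [e F]
    exact PsiR_add_le _ _ hh

/-- variance bound -/
lemma var_bound {n : ℕ} (hn : 3 ≤ n) {p : ℝ} (h0 : 0 ≤ p) (h1 : p ≤ 1) (J m : ℕ)
    (H : (Fin n → Bool) → ℕ) :
    (opC n p J ^ m) (fun H => (PsiR H) ^ 2) H ≤ ((opC n p J ^ m) PsiR H) ^ 2 + m * J ^ 2 := by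
  induction m generalizing H with
  | zero => simp
  | succ m ih =>
    rw [pow_succ', Module.End.mul_apply, Module.End.mul_apply]
    have e1 : ∀ Φ : ((Fin n → Bool) → ℕ) → ℝ, opC n p J Φ H =
        ∑ c : Cl n, wt p c * Φ (H + costC J c) := fun Φ => rfl
    rw [e1, e1]
    set b := (opC n p J ^ m) PsiR H with hb
    set a : Cl n → ℝ := fun c => (opC n p J ^ m) PsiR (H + costC J c) with ha
    have hab : ∀ c, b ≤ a c ∧ a c ≤ b + J := fun c =>
      opC_pow_between hn h0 h1 J m H (costC J c) (costC_le J c)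
    have h2 : ∑ c : Cl n, wt p c * (opC n p J ^ m) (fun H => (PsiR H) ^ 2) (H + costC J c) ≤
        ∑ c : Cl n, wt p c * ((a c) ^ 2 + m * J ^ 2) := by
      apply Finset.sum_le_sum
      intro c _
      exact mul_le_mul_of_nonneg_left (ih _) (wt_nonneg h0 h1 c)
    refine h2.trans ?_
    have hs := sum_wt hn p
    have h3 : ∑ c : Cl n, wt p c * ((a c) ^ 2 + m * J ^ 2) =
        ∑ c : Cl n, wt p c * (a c) ^ 2 + m * J ^ 2 := by
      simp_rw [mul_add, Finset.sum_add_distrib]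
      rw [← Finset.sum_mul, hs, one_mul]
    rw [h3]
    have h4 : ∑ c : Cl n, wt p c * a c = b + ∑ c : Cl n, wt p c * (a c - b) := by
      simp_rw [mul_sub, Finset.sum_sub_distrib]
      rw [← Finset.sum_mul, hs, one_mul]
      ring
    have h5 : ∑ c : Cl n, wt p c * (a c) ^ 2 = b ^ 2 + 2 * b * ∑ c : Cl n, wt p c * (a c - b) +
        ∑ c : Cl n, wt p c * (a c - b) ^ 2 := by
      rw [Finset.mul_sum, add_assoc, ← Finset.sum_add_distrib]
      have : b ^ 2 = ∑ c : Cl n, wt p c * b ^ 2 := by rw [← Finset.sum_mul, hs, one_mul]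
      rw [this, ← Finset.sum_add_distrib]
      apply Finset.sum_congr rfl
      intro c _
      ring
    have h6 : ∑ c : Cl n, wt p c * (a c - b) ^ 2 ≤ (J:ℝ) ^ 2 := by
      calc _ ≤ ∑ c : Cl n, wt p c * (J:ℝ) ^ 2 := by
            apply Finset.sum_le_sum
            intro c _
            apply mul_le_mul_of_nonneg_left _ (wt_nonneg h0 h1 c)
            apply pow_le_pow_left₀
            · linarith [(hab c).1]
            · linarith [(hab c).2]
        _ = _ := by rw [← Finset.sum_mul, hs, one_mul]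
    rw [h4, h5]
    push_cast
    nlinarith [sq_nonneg (∑ c : Cl n, wt p c * (a c - b))]

/-- mean ground-state energy -/
noncomputable def vv (n : ℕ) (p : ℝ) (J k : ℕ) : ℝ := (opC n p J ^ k) PsiR 0

lemma vv_mono {n : ℕ} {p : ℝ} (h0 : 0 ≤ p) (h1 : p ≤ 1) (hn : 3 ≤ n) (J : ℕ) :
    Monotone (vv n p J) := by
  apply monotone_nat_of_le_succ
  intro k
  unfold vv
  rw [pow_succ, Module.End.mul_apply]
  apply (opC_mono h0 h1 J).pow k
  intro H
  have e1 : opC n p J PsiR H = ∑ c : Cl n, wt p c * PsiR (H + costC J c) := rfl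
  rw [e1]
  calc PsiR H = ∑ c : Cl n, wt p c * PsiR H := by rw [← Finset.sum_mul, sum_wt hn, one_mul]
    _ ≤ _ := Finset.sum_le_sum fun c _ =>
      mul_le_mul_of_nonneg_left (PsiR_le_add _ _) (wt_nonneg h0 h1 c)

lemma vv_le {n : ℕ} {p : ℝ} (h0 : 0 ≤ p) (h1 : p ≤ 1) (hn : 3 ≤ n) (J k : ℕ) :
    vv n p J k ≤ J * k := by
  induction k with
  | zero => simp [vv, PsiR_zero]
  | succ k ih =>
    have h2 : vv n p J (k + 1) ≤ vv n p J k + J := by
      unfold vv
      rw [pow_succ', Module.End.mul_apply]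
      have e1 : ∀ Φ : ((Fin n → Bool) → ℕ) → ℝ, opC n p J Φ 0 =
        ∑ c : Cl n, wt p c * Φ (0 + costC J c) := fun Φ => rfl
      rw [e1]
      calc _ ≤ ∑ c : Cl n, wt p c * ((opC n p J ^ k) PsiR 0 + J) :=
            Finset.sum_le_sum fun c _ => mul_le_mul_of_nonneg_left
              (opC_pow_between hn h0 h1 J k 0 (costC J c) (costC_le J c)).2 (wt_nonneg h0 h1 c)
        _ = _ := by rw [← Finset.sum_mul, sum_wt hn, one_mul]
    push_cast
    linarith

lemma vv_nonneg {n : ℕ} {p : ℝ} (h0 : 0 ≤ p) (h1 : p ≤ 1) (hn : 3 ≤ n) (J k : ℕ) :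
    0 ≤ vv n p J k := by
  have := vv_mono h0 h1 hn J (Nat.zero_le k)
  have h2 : vv n p J 0 = 0 := by simp [vv, PsiR_zero]
  linarith

/-- binomial weights -/
noncomputable def bw (M k : ℕ) : ℝ := (M.choose k : ℝ) * (2 / 3) ^ (M - k) * (1 / 3) ^ k

lemma bw_nonneg (M k : ℕ) : 0 ≤ bw M k := by unfold bw; positivity

lemma sum_bw (M : ℕ) : ∑ k ∈ range (M + 1), bw M k = 1 := by
  have h := add_pow (1 / 3 : ℝ) (2 / 3) M
  rw [show (1 / 3 : ℝ) + 2 / 3 = 1 by norm_num, one_pow] at h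
  rw [h]
  apply Finset.sum_congr rfl
  intro k _
  unfold bw
  ring

lemma var_bw (M : ℕ) :
    ∑ k ∈ range (M + 1), bw M k * ((k:ℝ) - (M:ℝ) / 3) ^ (2:ℕ) = 2 * (M:ℝ) / 9 := by
  have h := bernsteinPolynomial.variance ℝ M
  have h2 := congrArg (Polynomial.eval (1 / 3 : ℝ)) h
  rw [Polynomial.eval_finsetSum] at h2
  simp only [bernsteinPolynomial, Polynomial.eval_mul, Polynomial.eval_pow, Polynomial.eval_sub,
    Polynomial.eval_X, Polynomial.eval_natCast, Polynomial.eval_one, nsmul_eq_mul] at h2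
  have h3 : (M:ℝ) * (1 / 3) * (1 - 1 / 3) = 2 * M / 9 := by ring
  rw [h3] at h2
  rw [← h2]
  apply Finset.sum_congr rfl
  intro k _
  unfold bw
  rw [show (1:ℝ) - 1 / 3 = 2 / 3 by norm_num]
  ring

lemma TT_pow_eq {n : ℕ} (p : ℝ) (J M : ℕ) :
    (TT n p J ^ M) PsiR 0 = ∑ k ∈ range (M + 1), bw M k * vv n p J k := by
  unfold TT
  rw [add_pow_apply]
  apply Finset.sum_congr rfl
  intro k _
  rw [smul_pow]
  simp only [LinearMap.smul_apply, Pi.smul_apply, smul_eq_mul]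
  unfold bw vv
  ring

/-- removing the binomial noise -/
lemma TT_pow_le {n : ℕ} (hn : 3 ≤ n) {p : ℝ} (h0 : 0 ≤ p) (h1 : p ≤ 1) (J M m : ℕ) {t : ℝ}
    (ht : 0 < t) (hm : (M:ℝ) / 3 + t ≤ m + 1) :
    (TT n p J ^ M) PsiR 0 ≤ vv n p J m + J * M * (2 * M / 9 / t ^ 2) := by
  rw [TT_pow_eq]
  have h2 : ∀ k ∈ range (M + 1), bw M k * vv n p J k ≤
      bw M k * vv n p J m + J * M / t ^ 2 * (bw M k * ((k:ℝ) - M / 3) ^ 2) := by
    intro k hk
    rw [mem_range] at hk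
    have hb := bw_nonneg M k
    by_cases hkm : k ≤ m
    · have h3 := mul_le_mul_of_nonneg_left (vv_mono h0 h1 hn J hkm) hb
      have h4 : 0 ≤ J * M / t ^ 2 * (bw M k * ((k:ℝ) - M / 3) ^ 2) := by positivity
      linarith
    · have hkm' : (m:ℝ) + 1 ≤ k := by
        have : m + 1 ≤ k := by omega
        exact_mod_cast this
      have h5 : vv n p J k ≤ J * M := by
        refine (vv_le h0 h1 hn J k).trans ?_
        have : (k:ℝ) ≤ M := by exact_mod_cast (by omega : k ≤ M)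
        exact mul_le_mul_of_nonneg_left this (by positivity)
      have h6 : t ^ 2 ≤ ((k:ℝ) - M / 3) ^ 2 := by
        apply pow_le_pow_left₀ ht.le
        linarith
      have h7 : (1:ℝ) ≤ ((k:ℝ) - M / 3) ^ 2 / t ^ 2 := by
        rw [le_div_iff₀ (by positivity)]
        linarith
      have h8 : bw M k * vv n p J k ≤ bw M k * (J * M) := mul_le_mul_of_nonneg_left h5 hb
      have h9 : bw M k * (J * M) * 1 ≤ bw M k * (J * M) * (((k:ℝ) - M / 3) ^ 2 / t ^ 2) :=
        mul_le_mul_of_nonneg_left h7 (by positivity)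
      have h10 : 0 ≤ bw M k * vv n p J m := mul_nonneg hb (vv_nonneg h0 h1 hn J m)
      have h11 : bw M k * (J * M) * (((k:ℝ) - M / 3) ^ 2 / t ^ 2) =
          J * M / t ^ 2 * (bw M k * ((k:ℝ) - M / 3) ^ 2) := by ring
      linarith
  refine (Finset.sum_le_sum h2).trans (le_of_eq ?_)
  rw [Finset.sum_add_distrib, ← Finset.sum_mul, sum_bw, ← Finset.mul_sum, var_bw]
  ring

end Pool.Agent.Lib.MP_9cae81_pr
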