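import Pool.Agent.Lib.MP_9cae81_pr.Conc

open Finset Filter
open scoped BigOperators Topology

namespace Pool.Agent.Lib.MP_9cae81_pr

/-- linear growth of the ground-state energy -/
lemma exists_linear {p : ℝ} (h0 : 0 < p) (h1 : p < 1) (hk : kap < p / (1 - p)) :
    ∃ (J : ℕ) (R δ : ℝ), 0 < J ∧ 0 < R ∧ R * (1 - p) < 1 ∧ 0 < δ ∧
      ∀ᶠ n : ℕ in atTop, δ * n ≤ vv n p J ⌊R * (n:ℝ)⌋₊ := by
  obtain ⟨J, r, δ, hJ, hr, hr1, hδ, hev⟩ := exists_lower h0 h1 hk
  have hq : 0 < 1 - p := by linarith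
  set R := (r + 1 / (1 - p)) / 2 with hR
  have hrR : r < 1 / (1 - p) := by rw [lt_div_iff₀ hq]; exact hr1
  have hRr : r < R := by rw [hR]; linarith
  have hR1 : R * (1 - p) < 1 := by
    rw [← lt_div_iff₀ hq, hR]; linarith
  have hRpos : 0 < R := by linarith
  set t := R - r with ht
  have htpos : 0 < t := by rw [ht]; linarith
  set C := (J:ℝ) * (2 * r ^ 2 / t ^ 2) with hC
  have hlin : Tendsto (fun n : ℕ => δ / 2 * (n:ℝ)) atTop atTop :=
    Tendsto.const_mul_atTop (by positivity) tendsto_natCast_atTop_atTop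
  refine ⟨J, R, δ / 2, hJ, hRpos, hR1, by positivity, ?_⟩
  filter_upwards [hev, eventually_ge_atTop 3, hlin.eventually_ge_atTop C] with n hn1 hn3 hnC
  have hn' : (0:ℝ) < n := by
    have : 0 < n := by omega
    exact_mod_cast this
  have hMle := MM_le hr n
  have hfl : R * n < ⌊R * (n:ℝ)⌋₊ + 1 := Nat.lt_floor_add_one _
  have h2 := TT_pow_le hn3 h0.le h1.le J (MM r n) ⌊R * (n:ℝ)⌋₊ (t := t * n) (by positivity) (by
    rw [ht]
    linarith)
  have h3 : (J:ℝ) * (MM r n) * (2 * (MM r n) / 9 / (t * n) ^ 2) ≤ C := by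
    have hM0 : (0:ℝ) ≤ (MM r n : ℝ) := by positivity
    have h4 : ((MM r n : ℝ)) ^ 2 ≤ (3 * r * n) ^ 2 := pow_le_pow_left₀ hM0 hMle 2
    have h5 : (J:ℝ) * (MM r n) * (2 * (MM r n) / 9 / (t * n) ^ 2) =
        (J * (2 / 9) / (t * n) ^ 2) * (MM r n : ℝ) ^ 2 := by ring
    have h6 : C = (J * (2 / 9) / (t * n) ^ 2) * (3 * r * n) ^ 2 := by
      rw [hC]
      field_simp
      ring
    rw [h5, h6]
    exact mul_le_mul_of_nonneg_left h4 (by positivity)
  linarith

/-- satisfaction of a clause -/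
def SatC {n : ℕ} (σ : Fin n → Bool) : Cl n → Prop
  | Sum.inl c => ∃ i, σ (c.1 i) = c.2 i
  | Sum.inr c => ∃ i, σ (c.1 i) = c.2 i

lemma costC_eq_zero {n J : ℕ} {σ : Fin n → Bool} {c : Cl n} (h : SatC σ c) :
    costC J c σ = 0 := by
  rcases c with c | c
  · exact if_pos h
  · exact if_pos h

open Classical in
/-- probability of satisfiability -/
noncomputable def satP (n m : ℕ) (p : ℝ) : ℝ :=
  ∑ F : Fin m → Cl n, (∏ i, wt p (F i)) * (if ∃ σ : Fin n → Bool, ∀ i, SatC σ (F i) then 1 else 0)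

lemma satP_nonneg {n m : ℕ} {p : ℝ} (h0 : 0 ≤ p) (h1 : p ≤ 1) : 0 ≤ satP n m p := by
  unfold satP
  apply Finset.sum_nonneg
  intro F _
  apply mul_nonneg (WW_nonneg h0 h1 F)
  split_ifs <;> norm_num

/-- second-moment estimate -/
lemma satP_mul_le {n : ℕ} (hn : 3 ≤ n) {p : ℝ} (h0 : 0 ≤ p) (h1 : p ≤ 1) (J m : ℕ) :
    satP n m p * (vv n p J m) ^ 2 ≤ m * J ^ 2 := by
  have hvar := var_bound hn h0 h1 J m 0
  rw [opC_pow_eq p J m (fun H => (PsiR H) ^ 2)] at hvar
  have hv : vv n p J m = ∑ F : Fin m → Cl n, WW p F * PsiR (∑ i, costC J (F i)) := by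
    unfold vv
    rw [opC_pow_eq]
    simp
  change _ ≤ (vv n p J m) ^ 2 + m * J ^ 2 at hvar
  simp only [zero_add] at hvar
  set v := vv n p J m with hvdef
  have h2 : satP n m p * v ^ 2 ≤ ∑ F : Fin m → Cl n, WW p F * (PsiR (∑ i, costC J (F i)) - v) ^ 2 := by
    unfold satP
    rw [Finset.sum_mul]
    apply Finset.sum_le_sum
    intro F _
    rw [mul_assoc]
    apply mul_le_mul_of_nonneg_left _ (WW_nonneg h0 h1 F)
    split_ifs with h
    · obtain ⟨σ, hσ⟩ := h
      have h3 : PsiR (∑ i, costC J (F i)) = 0 := by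
        unfold PsiR
        have h4 := Psi_le (∑ i, costC J (F i)) σ
        rw [Finset.sum_apply, Finset.sum_eq_zero (fun i _ => costC_eq_zero (hσ i))] at h4
        have h5 : Psi (∑ i, costC J (F i)) = 0 := by omega
        rw [h5]
        simp
      rw [h3]
      apply le_of_eq
      ring
    · rw [zero_mul]
      positivity
  have h3 : ∑ F : Fin m → Cl n, WW p F * (PsiR (∑ i, costC J (F i)) - v) ^ 2 =
      ∑ F : Fin m → Cl n, WW p F * (PsiR (∑ i, costC J (F i))) ^ 2 - v ^ 2 := by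
    have h4 : ∀ F : Fin m → Cl n, WW p F * (PsiR (∑ i, costC J (F i)) - v) ^ 2 =
        WW p F * (PsiR (∑ i, costC J (F i))) ^ 2 - 2 * v * (WW p F * PsiR (∑ i, costC J (F i))) +
          v ^ 2 * WW p F := by
      intro F
      ring
    simp_rw [h4]
    rw [Finset.sum_add_distrib, Finset.sum_sub_distrib, ← Finset.mul_sum, ← Finset.mul_sum, ← hv,
      sum_WW hn]
    ring
  linarith

/-- **unsatisfiability w.h.p. below the 2-SAT threshold** -/
theorem unsat_whp {p : ℝ} (h0 : 0 < p) (h1 : p < 1) (hk : kap < p / (1 - p)) :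
    ∃ R : ℝ, 0 < R ∧ R * (1 - p) < 1 ∧
      Tendsto (fun n : ℕ => satP n ⌊R * (n:ℝ)⌋₊ p) atTop (𝓝 0) := by
  obtain ⟨J, R, δ, hJ, hR, hR1, hδ, hev⟩ := exists_linear h0 h1 hk
  refine ⟨R, hR, hR1, ?_⟩
  have hlim : Tendsto (fun n : ℕ => (R * J ^ 2 / δ ^ 2) * (1 / (n:ℝ))) atTop (𝓝 0) := by
    have := (tendsto_one_div_atTop_nhds_zero_nat (𝕜 := ℝ)).const_mul (R * J ^ 2 / δ ^ 2)
    rwa [mul_zero] at this
  apply squeeze_zero' _ _ hlim
  · exact Eventually.of_forall fun n => satP_nonneg h0.le h1.le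
  · filter_upwards [hev, eventually_ge_atTop 3] with n hn1 hn3
    have hn' : (0:ℝ) < n := by
      have : 0 < n := by omega
      exact_mod_cast this
    have h2 := satP_mul_le hn3 h0.le h1.le J ⌊R * (n:ℝ)⌋₊
    have h3 : (⌊R * (n:ℝ)⌋₊ : ℝ) ≤ R * n := Nat.floor_le (by positivity)
    have h4 : satP n ⌊R * (n:ℝ)⌋₊ p * (δ * n) ^ 2 ≤ R * n * J ^ 2 := by
      have h5 : (δ * n) ^ 2 ≤ (vv n p J ⌊R * (n:ℝ)⌋₊) ^ 2 :=
        pow_le_pow_left₀ (by positivity) hn1 2
      have h6 := mul_le_mul_of_nonneg_left h5 (satP_nonneg (n := n) (m := ⌊R * (n:ℝ)⌋₊) h0.le h1.le)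
      have h7 : (⌊R * (n:ℝ)⌋₊ : ℝ) * J ^ 2 ≤ R * n * J ^ 2 :=
        mul_le_mul_of_nonneg_right h3 (by positivity)
      linarith
    have h8 : satP n ⌊R * (n:ℝ)⌋₊ p ≤ R * n * J ^ 2 / (δ * n) ^ 2 := by
      rw [le_div_iff₀ (by positivity)]
      exact h4
    refine h8.trans (le_of_eq ?_)
    field_simp

/-! ### the pure 3-SAT case by the first moment -/

lemma viol_card {n : ℕ} (σ : Fin n → Bool) (k : ℕ) [DecidablePred (fun c : KCl k n => ∃ i, σ (c.1 i) = c.2 i)] :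
    (univ.filter (fun c : KCl k n => ∃ i, σ (c.1 i) = c.2 i)).card + n.descFactorial k =
      Fintype.card (KCl k n) := by
  classical
  set F : Finset (Fin n × Bool) := univ.image (fun v => (v, !σ v)) with hF
  have hcard : F.card = n := by
    rw [hF, Finset.card_image_of_injective]
    · simp
    · intro a b hab
      exact (Prod.mk.inj hab).1
  have hinj : Set.InjOn Prod.fst (F : Set (Fin n × Bool)) := by
    intro l hl l' hl' h
    rw [hF] at hl hl'
    simp only [Finset.coe_image, Finset.coe_univ, Set.image_univ, Set.mem_range] at hl hl'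
    obtain ⟨v, rfl⟩ := hl
    obtain ⟨v', rfl⟩ := hl'
    simp only at h
    rw [h]
  have h1 := card_KCl_FF (k := k) F hinj
  rw [hcard] at h1
  rw [← h1, ← Finset.card_univ, ← Finset.card_filter_add_card_filter_not (s := univ)
    (fun c : KCl k n => ∃ i, σ (c.1 i) = c.2 i)]
  congr 2
  ext c
  simp only [Finset.mem_filter, Finset.mem_univ, true_and, not_exists]
  apply forall_congr'
  intro i
  rw [hF]
  simp only [Finset.mem_image, Finset.mem_univ, true_and, Prod.mk.injEq]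
  constructor
  · rintro ⟨v, hv, h2⟩
    rw [← hv, ← h2]
    cases σ v <;> simp
  · intro h
    refine ⟨c.1 i, rfl, ?_⟩
    cases h3 : σ (c.1 i) <;> cases h4 : c.2 i <;> simp_all

open Classical in
lemma sum_wt_sat {n : ℕ} (hn : 3 ≤ n) (σ : Fin n → Bool) :
    ∑ c : Cl n, wt 1 c * (if SatC σ c then 1 else 0) = 7 / 8 := by
  rw [Fintype.sum_sum_type]
  have e1 : ∑ c : KCl 2 n, wt 1 (Sum.inl c : Cl n) * (if SatC σ (Sum.inl c : Cl n) then (1:ℝ) else 0) = 0 := by
    apply Finset.sum_eq_zero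
    intro c _
    simp [wt]
  have e2 : ∑ c : KCl 3 n, wt 1 (Sum.inr c : Cl n) * (if SatC σ (Sum.inr c : Cl n) then (1:ℝ) else 0) =
      1 / (Fintype.card (KCl 3 n) : ℝ) *
        ((univ.filter (fun c : KCl 3 n => ∃ i, σ (c.1 i) = c.2 i)).card : ℝ) := by
    rw [Finset.card_filter]
    push_cast
    rw [Finset.mul_sum]
    apply Finset.sum_congr rfl
    intro c _
    by_cases h : ∃ i, σ (c.1 i) = c.2 i
    · have h' : SatC σ (Sum.inr c : Cl n) := h
      rw [if_pos h, if_pos h']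
      simp [wt]
    · have h' : ¬ SatC σ (Sum.inr c : Cl n) := h
      rw [if_neg h, if_neg h']
      simp
  rw [e1, e2, zero_add]
  have h1 := viol_card σ 3
  have h2 := card_KCl 3 n
  have h3 : 0 < n.descFactorial 3 := Nat.descFactorial_pos.2 hn
  have h4 : (univ.filter (fun c : KCl 3 n => ∃ i, σ (c.1 i) = c.2 i)).card =
      7 * n.descFactorial 3 := by omega
  rw [h4, h2]
  have h5 : (0:ℝ) < n.descFactorial 3 := by exact_mod_cast h3
  push_cast
  field_simp

lemma satP_one_le {n : ℕ} (hn : 3 ≤ n) (m : ℕ) : satP n m 1 ≤ 2 ^ n * (7 / 8) ^ m := by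
  classical
  have h1 : satP n m 1 ≤ ∑ σ : Fin n → Bool, ∑ F : Fin m → Cl n,
      ∏ i, (wt 1 (F i) * (if SatC σ (F i) then 1 else 0)) := by
    unfold satP
    rw [Finset.sum_comm]
    apply Finset.sum_le_sum
    intro F _
    simp_rw [Finset.prod_mul_distrib]
    rw [← Finset.mul_sum]
    apply mul_le_mul_of_nonneg_left _ (WW_nonneg zero_le_one le_rfl F)
    have h2 : ∀ σ : Fin n → Bool, (0:ℝ) ≤ ∏ i, (if SatC σ (F i) then (1:ℝ) else 0) := by
      intro σ
      apply Finset.prod_nonneg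
      intro i _
      split_ifs <;> norm_num
    split_ifs with h
    · obtain ⟨σ, hσ⟩ := h
      have h3 := Finset.single_le_sum (f := fun σ : Fin n → Bool =>
        ∏ i, (if SatC σ (F i) then (1:ℝ) else 0)) (fun σ _ => h2 σ) (mem_univ σ)
      refine le_trans ?_ h3
      rw [Finset.prod_eq_one]
      intro i _
      rw [if_pos (hσ i)]
    · exact Finset.sum_nonneg fun σ _ => h2 σ
  refine h1.trans (le_of_eq ?_)
  have h2 : ∀ σ : Fin n → Bool, ∑ F : Fin m → Cl n,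
      ∏ i, (wt 1 (F i) * (if SatC σ (F i) then (1:ℝ) else 0)) = (7 / 8) ^ m := by
    intro σ
    rw [← sum_wt_sat hn σ, Fintype.sum_pow]
  simp_rw [h2]
  rw [Finset.sum_const, Finset.card_univ, nsmul_eq_mul]
  simp

lemma unsat_one : Tendsto (fun n : ℕ => satP n ⌊(6:ℝ) * (n:ℝ)⌋₊ 1) atTop (𝓝 0) := by
  have hlim : Tendsto (fun n : ℕ => (2 * (7 / 8 : ℝ) ^ 6) ^ n) atTop (𝓝 0) :=
    tendsto_pow_atTop_nhds_zero_of_lt_one (by norm_num) (by norm_num)
  apply squeeze_zero' _ _ hlim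
  · exact Eventually.of_forall fun n => satP_nonneg zero_le_one le_rfl
  · filter_upwards [eventually_ge_atTop 3] with n hn3
    have h1 : ⌊(6:ℝ) * (n:ℝ)⌋₊ = 6 * n := by
      have : (6:ℝ) * n = ((6 * n : ℕ) : ℝ) := by push_cast; ring
      rw [this, Nat.floor_natCast]
    rw [h1]
    refine (satP_one_le hn3 _).trans (le_of_eq ?_)
    rw [mul_pow, ← pow_mul]

/-- the critical mixing parameter -/
noncomputable def pcrit : ℝ :=
  sSup {p : ℝ | 0 ≤ p ∧ p ≤ 1 ∧ ∀ r : ℝ, 0 < r → r * (1 - p) < 1 →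
    Tendsto (fun n : ℕ => satP n ⌊r * (n:ℝ)⌋₊ p) atTop (𝓝 1)}

theorem unsat_above {p : ℝ} (hp : kap / (1 + kap) < p) (h1 : p ≤ 1) :
    ∃ r : ℝ, 0 < r ∧ r * (1 - p) < 1 ∧
      Tendsto (fun n : ℕ => satP n ⌊r * (n:ℝ)⌋₊ p) atTop (𝓝 0) := by
  have hk := kap_pos
  rcases h1.lt_or_eq with h1 | h1
  · have h0 : 0 < p := lt_trans (by positivity) hp
    apply unsat_whp h0 h1
    rw [div_lt_iff₀ (by linarith)] at hp
    rw [lt_div_iff₀ (by linarith)]
    nlinarith
  · subst h1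
    exact ⟨6, by norm_num, by norm_num, unsat_one⟩

theorem pcrit_le : pcrit ≤ kap / (1 + kap) := by
  have hk := kap_pos
  apply Real.sSup_le
  · rintro p ⟨_, h1, h⟩
    by_contra hlt
    rw [not_le] at hlt
    obtain ⟨r, hr, hr1, hlim⟩ := unsat_above hlt h1
    have := tendsto_nhds_unique (h r hr hr1) hlim
    norm_num at this
  · positivity

theorem bound_lt : kap / (1 + kap) < 0.4064 := by
  have hk := kap_pos
  have hk2 := kap_lt
  rw [div_lt_iff₀ (by linarith)]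
  nlinarith

end Pool.Agent.Lib.MP_9cae81_pr
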