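import Pool.Agent.Lib.MP_9cae81_pr.Ops

open Finset
open scoped BigOperators

namespace Pool.Agent.Lib.MP_9cae81_pr

/-- minimum of a cost function -/
def Psi {n : ℕ} (H : (Fin n → Bool) → ℕ) : ℕ := univ.inf' univ_nonempty H

lemma Psi_le {n : ℕ} (H : (Fin n → Bool) → ℕ) (σ : Fin n → Bool) : Psi H ≤ H σ :=
  inf'_le _ (mem_univ σ)

lemma exists_Psi {n : ℕ} (H : (Fin n → Bool) → ℕ) : ∃ σ, H σ = Psi H := by
  obtain ⟨σ, _, h⟩ := exists_mem_eq_inf' (s := univ) univ_nonempty H
  exact ⟨σ, h.symm⟩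

lemma le_Psi {n : ℕ} {H : (Fin n → Bool) → ℕ} {c : ℕ} (h : ∀ σ, c ≤ H σ) : c ≤ Psi H :=
  le_inf' _ _ fun σ _ => h σ

lemma Psi_mono {n : ℕ} {H H' : (Fin n → Bool) → ℕ} (h : ∀ σ, H σ ≤ H' σ) : Psi H ≤ Psi H' :=
  le_Psi fun σ => (Psi_le H σ).trans (h σ)

open Classical in
/-- literals whose satisfaction costs more than `s` -/
noncomputable def FF {n : ℕ} (H : (Fin n → Bool) → ℕ) (s : ℕ) : Finset (Fin n × Bool) :=
  univ.filter (fun l => ∀ σ : Fin n → Bool, σ l.1 = l.2 → Psi H + s < H σ)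

lemma mem_FF {n : ℕ} {H : (Fin n → Bool) → ℕ} {s : ℕ} {l : Fin n × Bool} :
    l ∈ FF H s ↔ ∀ σ : Fin n → Bool, σ l.1 = l.2 → Psi H + s < H σ := by
  classical
  simp [FF]

lemma FF_anti {n : ℕ} {H : (Fin n → Bool) → ℕ} {s t : ℕ} (hst : s ≤ t) {l : Fin n × Bool}
    (h : l ∈ FF H t) : l ∈ FF H s := by
  rw [mem_FF] at h ⊢
  intro σ hσ
  have := h σ hσ
  omega

lemma FF_fst_inj {n : ℕ} (H : (Fin n → Bool) → ℕ) (s : ℕ) :
    Set.InjOn Prod.fst (FF H s : Set (Fin n × Bool)) := by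
  obtain ⟨σ, hσ⟩ := exists_Psi H
  have key : ∀ l ∈ FF H s, l.2 = !(σ l.1) := by
    intro l hl
    rw [mem_FF] at hl
    by_contra hne
    have h1 : σ l.1 = l.2 := by
      cases h2 : σ l.1 <;> cases h3 : l.2 <;> simp_all
    have := hl σ h1
    omega
  intro l hl l' hl' h
  have h1 := key l hl
  have h2 := key l' hl'
  ext
  · exact congrArg Fin.val h
  · rw [h1, h2, h]

lemma FF_card_le {n : ℕ} (H : (Fin n → Bool) → ℕ) (s : ℕ) : (FF H s).card ≤ n := by
  have h1 : (FF H s).card = ((FF H s).image Prod.fst).card :=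
    (card_image_of_injOn (FF_fst_inj H s)).symm
  rw [h1]
  calc _ ≤ (univ : Finset (Fin n)).card := card_le_card (subset_univ _)
    _ = n := by simp

/-- `k`-clauses: `k` distinct variables and `k` signs -/
abbrev KCl (k n : ℕ) : Type := (Fin k ↪ Fin n) × (Fin k → Bool)

/-- cost of a clause: `J` if violated -/
def costK {k n : ℕ} (J : ℕ) (c : KCl k n) (σ : Fin n → Bool) : ℕ :=
  if ∃ i, σ (c.1 i) = c.2 i then 0 else J

open Classical in
lemma card_KCl_FF {k n : ℕ} (F : Finset (Fin n × Bool))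
    (hF : Set.InjOn Prod.fst (F : Set (Fin n × Bool))) :
    (univ.filter (fun c : KCl k n => ∀ i, (c.1 i, c.2 i) ∈ F)).card = F.card.descFactorial k := by
  have h1 : Fintype.card (Fin k ↪ F) = F.card.descFactorial k := by
    rw [Fintype.card_embedding_eq]; simp
  rw [← h1, ← Fintype.card_subtype]
  apply Fintype.card_congr
  refine ⟨fun c => ⟨fun i => ⟨(c.1.1 i, c.1.2 i), c.2 i⟩, ?_⟩,
    fun f => ⟨(⟨fun i => (f i).1.1, ?_⟩, fun i => (f i).1.2), ?_⟩, ?_, ?_⟩
  · intro i j hij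
    simp only [Subtype.mk.injEq, Prod.mk.injEq] at hij
    exact c.1.1.injective hij.1
  · intro i j hij
    have h2 := hF (f i).2 (f j).2 hij
    exact f.injective (Subtype.ext h2)
  · intro i
    exact (f i).2
  · rintro ⟨⟨a, s⟩, hc⟩
    rfl
  · intro f
    rfl

lemma card_KCl (k n : ℕ) : Fintype.card (KCl k n) = n.descFactorial k * 2 ^ k := by
  rw [Fintype.card_prod, Fintype.card_embedding_eq]
  simp

/-- increment produced by a clause, pointwise lower bound -/
lemma Psi_add_cost {k n : ℕ} (J : ℕ) (H : (Fin n → Bool) → ℕ) (c : KCl k n) :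
    Psi H + ((range J).filter (fun s => ∀ i, (c.1 i, c.2 i) ∈ FF H s)).card ≤
      Psi (H + costK J c) := by
  apply le_Psi
  intro σ
  rw [Pi.add_apply]
  unfold costK
  split_ifs with h
  · obtain ⟨i, hi⟩ := h
    have h1 : ((range J).filter (fun s => ∀ i, (c.1 i, c.2 i) ∈ FF H s)) ⊆
        range (H σ - Psi H) := by
      intro s hs
      rw [mem_filter] at hs
      have := mem_FF.1 (hs.2 i) σ hi
      rw [mem_range]
      omega
    have h2 := card_le_card h1
    rw [card_range] at h2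
    have := Psi_le H σ
    omega
  · have h1 := card_filter_le (range J) (fun s => ∀ i, (c.1 i, c.2 i) ∈ FF H s)
    rw [card_range] at h1
    have := Psi_le H σ
    omega

/-- unary cost `u` on the literal `l` -/
def costU {n : ℕ} (l : Fin n × Bool) (u : ℕ) (σ : Fin n → Bool) : ℕ :=
  if σ l.1 = l.2 then 0 else u

lemma Psi_add_costU {n : ℕ} (H : (Fin n → Bool) → ℕ) (l : Fin n × Bool) (u : ℕ) :
    Psi (H + costU l u) ≤ Psi H + ((range u).filter (fun s => l ∈ FF H s)).card := by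
  classical
  by_cases hall : ∀ s < u, l ∈ FF H s
  · have h1 : (range u).filter (fun s => l ∈ FF H s) = range u := by
      apply filter_true_of_mem
      intro s hs
      exact hall s (mem_range.1 hs)
    rw [h1, card_range]
    obtain ⟨σ, hσ⟩ := exists_Psi H
    refine (Psi_le _ σ).trans ?_
    rw [Pi.add_apply, hσ]
    unfold costU
    split_ifs <;> omega
  · push Not at hall
    have hex : ∃ s, l ∉ FF H s := by
      obtain ⟨s, _, hs⟩ := hall
      exact ⟨s, hs⟩
    set s0 := Nat.find hex with hs0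
    have hs0n : l ∉ FF H s0 := Nat.find_spec hex
    have hs0u : s0 ≤ u := by
      obtain ⟨s, hsu, hs⟩ := hall
      exact (Nat.find_min' hex hs).trans hsu.le
    have hcard : s0 ≤ ((range u).filter (fun s => l ∈ FF H s)).card := by
      have h1 : range s0 ⊆ (range u).filter (fun s => l ∈ FF H s) := by
        intro s hs
        rw [mem_range] at hs
        rw [mem_filter, mem_range]
        refine ⟨hs.trans_le hs0u, ?_⟩
        have := Nat.find_min hex hs
        simpa using this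
      have h2 := card_le_card h1
      rwa [card_range] at h2
    rw [mem_FF] at hs0n
    push Not at hs0n
    obtain ⟨σ, hσl, hσ⟩ := hs0n
    refine (Psi_le _ σ).trans ?_
    rw [Pi.add_apply]
    unfold costU
    rw [if_pos hσl]
    omega

/-- the real-valued functional -/
def PsiR {n : ℕ} (H : (Fin n → Bool) → ℕ) : ℝ := (Psi H : ℝ)

/-- averaging over `k`-clauses -/
lemma avg_clause_ge {k n : ℕ} (J : ℕ) (H : (Fin n → Bool) → ℕ) (hcard : 0 < Fintype.card (KCl k n)) :
    PsiR H + ∑ s ∈ range J, ((FF H s).card.descFactorial k : ℝ) / (Fintype.card (KCl k n) : ℝ) ≤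
      ∑ c : KCl k n, (1 / (Fintype.card (KCl k n) : ℝ)) * PsiR (H + costK J c) := by
  classical
  have hN : (0:ℝ) < (Fintype.card (KCl k n) : ℝ) := by exact_mod_cast hcard
  have h1 : ∑ c : KCl k n, (1 / (Fintype.card (KCl k n) : ℝ)) * (PsiR H +
      (((range J).filter (fun s => ∀ i, (c.1 i, c.2 i) ∈ FF H s)).card : ℝ)) ≤
      ∑ c : KCl k n, (1 / (Fintype.card (KCl k n) : ℝ)) * PsiR (H + costK J c) := by
    apply Finset.sum_le_sum
    intro c _
    apply mul_le_mul_of_nonneg_left _ (by positivity)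
    unfold PsiR
    exact_mod_cast Psi_add_cost J H c
  refine le_trans (le_of_eq ?_) h1
  simp_rw [mul_add, Finset.sum_add_distrib]
  congr 1
  · rw [Finset.sum_const, Finset.card_univ, nsmul_eq_mul]
    field_simp
  · have h2 : ∀ c : KCl k n, (((range J).filter (fun s => ∀ i, (c.1 i, c.2 i) ∈ FF H s)).card : ℝ) =
        ∑ s ∈ range J, (if ∀ i, (c.1 i, c.2 i) ∈ FF H s then (1:ℝ) else 0) := by
      intro c
      rw [Finset.card_filter]
      push_cast
      rfl
    simp_rw [h2]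
    rw [← Finset.mul_sum, Finset.sum_comm, Finset.mul_sum]
    apply Finset.sum_congr rfl
    intro s _
    have h3 : ∑ c : KCl k n, (if ∀ i, (c.1 i, c.2 i) ∈ FF H s then (1:ℝ) else 0) =
        ((univ.filter (fun c : KCl k n => ∀ i, (c.1 i, c.2 i) ∈ FF H s)).card : ℝ) := by
      rw [Finset.card_filter]
      push_cast
      rfl
    rw [h3, card_KCl_FF _ (FF_fst_inj H s)]
    ring

/-- fraction of literals in `FF H s` -/
noncomputable def fr {n : ℕ} (H : (Fin n → Bool) → ℕ) (s : ℕ) : ℝ := ((FF H s).card : ℝ) / (2 * n)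

lemma fr_nonneg {n : ℕ} (H : (Fin n → Bool) → ℕ) (s : ℕ) : 0 ≤ fr H s := by
  unfold fr; positivity

lemma desc2_ge {n N : ℕ} (hn : 3 ≤ n) (hN : N ≤ n) :
    ((N:ℝ) / (2 * n))^2 - 1 / n ≤ (N.descFactorial 2 : ℝ) / ((n.descFactorial 2 * 2 ^ 2 : ℕ) : ℝ) := by
  have hn0 : (3:ℝ) ≤ n := by exact_mod_cast hn
  have hNn : (N:ℝ) ≤ n := by exact_mod_cast hN
  have e0 : ∀ N : ℕ, (N.descFactorial 2 : ℝ) = N * (N - 1) := by
    intro N
    rcases Nat.eq_zero_or_pos N with h | h
    · subst h; simp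
    · simp only [Nat.descFactorial, Nat.sub_zero, Nat.mul_one]
      push_cast [Nat.cast_sub h]
      ring
  have hpos : (0:ℝ) ≤ (N.descFactorial 2 : ℝ) := by positivity
  have h1 : (N.descFactorial 2 : ℝ) / (4 * (n:ℝ)^2) ≤
      (N.descFactorial 2 : ℝ) / ((n.descFactorial 2 * 2 ^ 2 : ℕ) : ℝ) := by
    apply div_le_div_of_nonneg_left hpos
    · push_cast
      rw [e0 n]
      nlinarith
    · push_cast
      rw [e0 n]
      nlinarith
  refine le_trans ?_ h1
  rw [e0 N]
  have h2 : (N:ℝ) * (N - 1) / (4 * (n:ℝ)^2) = ((N:ℝ) / (2 * n))^2 - (N:ℝ) / (4 * n^2) := by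
    field_simp
    ring
  rw [h2]
  have h3 : (N:ℝ) / (4 * n^2) ≤ 1 / n := by
    rw [div_le_div_iff₀ (by positivity) (by linarith)]
    nlinarith
  linarith

lemma desc3_ge {n N : ℕ} (hn : 3 ≤ n) (hN : N ≤ n) :
    ((N:ℝ) / (2 * n))^3 - 1 / n ≤ (N.descFactorial 3 : ℝ) / ((n.descFactorial 3 * 2 ^ 3 : ℕ) : ℝ) := by
  have hn0 : (3:ℝ) ≤ n := by exact_mod_cast hn
  have hNn : (N:ℝ) ≤ n := by exact_mod_cast hN
  have e0 : ∀ N : ℕ, (N.descFactorial 3 : ℝ) = N * (N - 1) * (N - 2) := by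
    intro N
    match N with
    | 0 => simp
    | 1 => simp
    | (m + 2) =>
      simp only [Nat.descFactorial, Nat.sub_zero, Nat.mul_one]
      rw [show m + 2 - 2 = m by omega, show m + 2 - 1 = m + 1 by omega]
      push_cast
      ring
  have hpos : (0:ℝ) ≤ (N.descFactorial 3 : ℝ) := by positivity
  have h1 : (N.descFactorial 3 : ℝ) / (8 * (n:ℝ)^3) ≤
      (N.descFactorial 3 : ℝ) / ((n.descFactorial 3 * 2 ^ 3 : ℕ) : ℝ) := by
    have hp : 0 < ((n:ℝ) - 1) * (n - 2) := mul_pos (by linarith) (by linarith)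
    apply div_le_div_of_nonneg_left hpos
    · push_cast
      rw [e0 n, mul_assoc (n:ℝ)]
      positivity
    · push_cast
      rw [e0 n, mul_assoc (n:ℝ)]
      have : ((n:ℝ) - 1) * (n - 2) ≤ n^2 := by nlinarith
      have h4 : (n:ℝ) * (((n:ℝ) - 1) * (n - 2)) ≤ n * n^2 :=
        mul_le_mul_of_nonneg_left this (by linarith)
      nlinarith
  refine le_trans ?_ h1
  rw [e0 N]
  have h2 : (N:ℝ) * (N - 1) * (N - 2) / (8 * (n:ℝ)^3) =
      ((N:ℝ) / (2 * n))^3 - (3 * N^2 - 2 * N) / (8 * n^3) := by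
    field_simp
    ring
  rw [h2]
  have h3 : (3 * (N:ℝ)^2 - 2 * N) / (8 * n^3) ≤ 1 / n := by
    rw [div_le_div_iff₀ (by positivity) (by linarith)]
    have hN0 : (0:ℝ) ≤ N := by positivity
    have h5 : (N:ℝ)^2 ≤ n^2 := pow_le_pow_left₀ hN0 hNn 2
    have h6 : (3 * (N:ℝ)^2 - 2 * N) * n ≤ (3 * n^2) * n := by
      apply mul_le_mul_of_nonneg_right _ (by linarith)
      linarith
    nlinarith [show (0:ℝ) ≤ n^3 by positivity]
  linarith

/-- clause averages in terms of the fractions -/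
lemma avg_clause2 {n : ℕ} (hn : 3 ≤ n) (J : ℕ) (H : (Fin n → Bool) → ℕ) :
    PsiR H + ∑ s ∈ range J, ((fr H s)^2 - 1 / n) ≤
      ∑ c : KCl 2 n, (1 / (Fintype.card (KCl 2 n) : ℝ)) * PsiR (H + costK J c) := by
  have hc : 0 < Fintype.card (KCl 2 n) := by
    rw [card_KCl]
    have := Nat.descFactorial_pos.2 (by omega : 2 ≤ n)
    positivity
  refine le_trans ?_ (avg_clause_ge J H hc)
  gcongr with s _
  rw [card_KCl]
  exact desc2_ge hn (FF_card_le H s)

lemma avg_clause3 {n : ℕ} (hn : 3 ≤ n) (J : ℕ) (H : (Fin n → Bool) → ℕ) :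
    PsiR H + ∑ s ∈ range J, ((fr H s)^3 - 1 / n) ≤
      ∑ c : KCl 3 n, (1 / (Fintype.card (KCl 3 n) : ℝ)) * PsiR (H + costK J c) := by
  have hc : 0 < Fintype.card (KCl 3 n) := by
    rw [card_KCl]
    have := Nat.descFactorial_pos.2 (by omega : 3 ≤ n)
    positivity
  refine le_trans ?_ (avg_clause_ge J H hc)
  gcongr with s _
  rw [card_KCl]
  exact desc3_ge hn (FF_card_le H s)

/-- the mixed clauses -/
abbrev Cl (n : ℕ) : Type := KCl 2 n ⊕ KCl 3 n

/-- their weights -/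
noncomputable def wt {n : ℕ} (p : ℝ) : Cl n → ℝ
  | Sum.inl _ => (1 - p) / (Fintype.card (KCl 2 n) : ℝ)
  | Sum.inr _ => p / (Fintype.card (KCl 3 n) : ℝ)

/-- their costs -/
def costC {n : ℕ} (J : ℕ) : Cl n → (Fin n → Bool) → ℕ
  | Sum.inl c => costK J c
  | Sum.inr c => costK J c

/-- adding one random clause -/
noncomputable def opC (n : ℕ) (p : ℝ) (J : ℕ) : Module.End ℝ (((Fin n → Bool) → ℕ) → ℝ) :=
  avg (wt p) (costC J)

lemma wt_nonneg {n : ℕ} {p : ℝ} (h0 : 0 ≤ p) (h1 : p ≤ 1) (c : Cl n) : 0 ≤ wt p c := by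
  rcases c with c | c
  · exact div_nonneg (by linarith) (by positivity)
  · exact div_nonneg h0 (by positivity)

lemma sum_wt {n : ℕ} (hn : 3 ≤ n) (p : ℝ) : ∑ c : Cl n, wt p c = 1 := by
  have hc2 : 0 < Fintype.card (KCl 2 n) := by
    rw [card_KCl]
    have := Nat.descFactorial_pos.2 (by omega : 2 ≤ n)
    positivity
  have hc3 : 0 < Fintype.card (KCl 3 n) := by
    rw [card_KCl]
    have := Nat.descFactorial_pos.2 (by omega : 3 ≤ n)
    positivity
  have h2 : (0:ℝ) < (Fintype.card (KCl 2 n) : ℝ) := by exact_mod_cast hc2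
  have h3 : (0:ℝ) < (Fintype.card (KCl 3 n) : ℝ) := by exact_mod_cast hc3
  rw [Fintype.sum_sum_type]
  simp only [wt, Finset.sum_const, Finset.card_univ, nsmul_eq_mul]
  rw [mul_div_cancel₀ _ h2.ne', mul_div_cancel₀ _ h3.ne']
  ring

lemma opC_ge {n : ℕ} (hn : 3 ≤ n) {p : ℝ} (h0 : 0 ≤ p) (h1 : p ≤ 1) (J : ℕ)
    (H : (Fin n → Bool) → ℕ) :
    PsiR H + ((1 - p) * ∑ s ∈ range J, ((fr H s)^2 - 1 / n) +
      p * ∑ s ∈ range J, ((fr H s)^3 - 1 / n)) ≤ opC n p J PsiR H := by
  unfold opC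
  rw [avg_apply, Fintype.sum_sum_type]
  have e1 : ∑ c : KCl 2 n, wt p (Sum.inl c : Cl n) * PsiR (H + costC J (Sum.inl c)) =
      (1 - p) * ∑ c : KCl 2 n, (1 / (Fintype.card (KCl 2 n) : ℝ)) * PsiR (H + costK J c) := by
    rw [Finset.mul_sum]
    apply Finset.sum_congr rfl
    intro c _
    simp only [wt, costC]
    ring
  have e2 : ∑ c : KCl 3 n, wt p (Sum.inr c : Cl n) * PsiR (H + costC J (Sum.inr c)) =
      p * ∑ c : KCl 3 n, (1 / (Fintype.card (KCl 3 n) : ℝ)) * PsiR (H + costK J c) := by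
    rw [Finset.mul_sum]
    apply Finset.sum_congr rfl
    intro c _
    simp only [wt, costC]
    ring
  rw [e1, e2]
  have h2 := mul_le_mul_of_nonneg_left (avg_clause2 hn J H) (by linarith : 0 ≤ 1 - p)
  have h3 := mul_le_mul_of_nonneg_left (avg_clause3 hn J H) h0
  linarith

/-! ### the unary side -/

/-- index set of the unary terms -/
abbrev UI (n J : ℕ) : Type := Option ((Fin n × Bool) × Fin J)

/-- the weights of the unary terms for a tail function `B` -/
noncomputable def wU {n J : ℕ} (B : ℕ → ℝ) : UI n J → ℝ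
  | none => 1 - B 0
  | some (_, i) => (B i - B (i + 1)) / (2 * n)

/-- unary costs -/
def costV {n J : ℕ} : UI n J → (Fin n → Bool) → ℕ
  | none => 0
  | some (l, i) => costU l (i + 1)

/-- adding one random unary term -/
noncomputable def opU (n J : ℕ) (B : ℕ → ℝ) : Module.End ℝ (((Fin n → Bool) → ℕ) → ℝ) :=
  avg (wU B) (costV (n := n) (J := J))

lemma wU_nonneg {n J : ℕ} {B : ℕ → ℝ} (hB : Antitone B) (h0 : B 0 ≤ 1) (i : UI n J) :
    0 ≤ wU B i := by
  rcases i with _ | ⟨l, i⟩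
  · simp only [wU]; linarith
  · simp only [wU]
    apply div_nonneg _ (by positivity)
    have := hB (Nat.le_succ (i : ℕ))
    simp only [Nat.succ_eq_add_one] at this
    linarith

lemma sum_tail (B : ℕ → ℝ) (J : ℕ) : ∑ i : Fin J, (B i - B (i + 1)) = B 0 - B J := by
  rw [Fin.sum_univ_eq_sum_range (fun i => B i - B (i + 1)) J, Finset.sum_range_sub']

lemma sum_wU {n J : ℕ} (hn : 0 < n) (B : ℕ → ℝ) (hJ : B J = 0) : ∑ i : UI n J, wU B i = 1 := by
  rw [Fintype.sum_option, Fintype.sum_prod_type]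
  simp only [wU]
  rw [Finset.sum_const, ← Finset.sum_div, sum_tail, hJ]
  simp only [Finset.card_univ, Fintype.card_prod, Fintype.card_fin, Fintype.card_bool,
    nsmul_eq_mul, sub_zero]
  have : (0:ℝ) < n := by exact_mod_cast hn
  push_cast
  field_simp
  ring

/-- Abel summation -/
lemma abel (B : ℕ → ℝ) (J : ℕ) (hJ : B J = 0) (P : ℕ → Prop) [DecidablePred P] :
    ∑ i : Fin J, (B i - B (i + 1)) * (((range (i + 1)).filter P).card : ℝ) =
      ∑ s ∈ range J, if P s then B s else 0 := by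
  have key : ∀ J : ℕ, ∑ i ∈ range J, (B i - B (i + 1)) * (((range (i + 1)).filter P).card : ℝ) =
      (∑ s ∈ range J, if P s then B s else 0) - B J * (((range J).filter P).card : ℝ) := by
    intro J
    induction J with
    | zero => simp
    | succ J ih =>
      rw [Finset.sum_range_succ, ih, Finset.sum_range_succ, Finset.range_add_one,
        Finset.filter_insert]
      split_ifs with h
      · rw [Finset.card_insert_of_notMem (by simp)]
        push_cast
        ring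
      · ring
  rw [Fin.sum_univ_eq_sum_range (fun i => (B i - B (i + 1)) *
    (((range (i + 1)).filter P).card : ℝ)) J, key J, hJ]
  ring

lemma opU_le {n J : ℕ} (hn : 0 < n) {B : ℕ → ℝ} (hB : Antitone B) (hJ : B J = 0)
    (H : (Fin n → Bool) → ℕ) :
    opU n J B PsiR H ≤ PsiR H + ∑ s ∈ range J, B s * fr H s := by
  classical
  have hn' : (0:ℝ) < n := by exact_mod_cast hn
  unfold opU
  rw [avg_apply, Fintype.sum_option, Fintype.sum_prod_type]
  simp only [wU, costV, add_zero]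
  have h1 : ∀ l : Fin n × Bool, ∑ i : Fin J, (B i - B (i + 1)) / (2 * n) *
      PsiR (H + costU l (i + 1)) ≤ (B 0 / (2 * n)) * PsiR H +
        (1 / (2 * n)) * ∑ s ∈ range J, if l ∈ FF H s then B s else 0 := by
    intro l
    rw [← abel B J hJ (fun s => l ∈ FF H s)]
    have h2 : B 0 = ∑ i : Fin J, (B i - B (i + 1)) := by rw [sum_tail, hJ]; ring
    have h3 : (B 0 / (2 * n)) * PsiR H = ∑ i : Fin J, (B i - B (i + 1)) / (2 * n) * PsiR H := by
      conv_lhs => rw [h2]
      rw [Finset.sum_div, Finset.sum_mul]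
    rw [h3, Finset.mul_sum, ← Finset.sum_add_distrib]
    apply Finset.sum_le_sum
    intro i _
    have h4 : 0 ≤ B i - B (i + 1) := by
      have := hB (Nat.le_succ (i : ℕ))
      simp only [Nat.succ_eq_add_one] at this
      linarith
    have h5 : PsiR (H + costU l (i + 1)) ≤ PsiR H +
        (((range ((i:ℕ) + 1)).filter (fun s => l ∈ FF H s)).card : ℝ) := by
      unfold PsiR
      exact_mod_cast Psi_add_costU H l (i + 1)
    calc _ ≤ (B i - B (i + 1)) / (2 * n) * (PsiR H +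
        (((range ((i:ℕ) + 1)).filter (fun s => l ∈ FF H s)).card : ℝ)) :=
          mul_le_mul_of_nonneg_left h5 (by positivity)
      _ = _ := by ring
  have h6 := Finset.sum_le_sum (s := (univ : Finset (Fin n × Bool))) fun l _ => h1 l
  rw [Finset.sum_add_distrib, Finset.sum_const, ← Finset.mul_sum] at h6
  have h7 : ∀ s, ∑ l : Fin n × Bool, (if l ∈ FF H s then B s else 0) =
      ((FF H s).card : ℝ) * B s := by
    intro s
    rw [Finset.sum_ite_mem, Finset.univ_inter, Finset.sum_const, nsmul_eq_mul]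
  have h10 : ∑ l : Fin n × Bool, ∑ s ∈ range J, (if l ∈ FF H s then B s else 0) =
      ∑ s ∈ range J, ((FF H s).card : ℝ) * B s := by
    rw [Finset.sum_comm]
    exact Finset.sum_congr rfl fun s _ => h7 s
  rw [h10] at h6
  simp only [Finset.card_univ, Fintype.card_prod, Fintype.card_fin, Fintype.card_bool,
    nsmul_eq_mul] at h6
  have h8 : ((n * 2 : ℕ) : ℝ) * (B 0 / (2 * n) * PsiR H) = B 0 * PsiR H := by
    push_cast
    field_simp
  rw [h8] at h6
  have h9 : (1 / (2 * (n:ℝ))) * ∑ s ∈ range J, ((FF H s).card : ℝ) * B s =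
      ∑ s ∈ range J, B s * fr H s := by
    rw [Finset.mul_sum]
    apply Finset.sum_congr rfl
    intro s _
    unfold fr
    ring
  rw [h9] at h6
  linarith

/-- **key inequality** -/
lemma key_ineq {n J : ℕ} (hn : 3 ≤ n) {p : ℝ} (h0 : 0 ≤ p) (h1 : p ≤ 1) {G : ℕ → ℝ}
    (hG : Antitone G) (hG0 : ∀ s, 0 ≤ G s) (hJ : G J = 0) (H : (Fin n → Bool) → ℕ) :
    opU n J (fun s => 2 * (1 - p) / 3 * G s + p * (G s)^2) PsiR H -
      (1 / 3 * ((1 - p) * ∑ s ∈ range J, (G s)^2 + 2 * p * ∑ s ∈ range J, (G s)^3 + J / n)) ≤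
      ((2 / 3 : ℝ) • (1 : Module.End ℝ (((Fin n → Bool) → ℕ) → ℝ)) + (1 / 3 : ℝ) • opC n p J)
        PsiR H := by
  have hB : Antitone (fun s => 2 * (1 - p) / 3 * G s + p * (G s)^2) := by
    intro s t hst
    have h2 := hG hst
    have h3 : (G t)^2 ≤ (G s)^2 := pow_le_pow_left₀ (hG0 t) h2 2
    have h4 : 0 ≤ 2 * (1 - p) / 3 := by linarith
    exact add_le_add (mul_le_mul_of_nonneg_left h2 h4) (mul_le_mul_of_nonneg_left h3 h0)
  have hU := opU_le (n := n) (J := J) (by omega) hB (by simp [hJ]) H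
  have hC := opC_ge hn h0 h1 J H
  simp only [LinearMap.add_apply, LinearMap.smul_apply, Module.End.one_apply, Pi.add_apply,
    Pi.smul_apply, smul_eq_mul]
  have hkey : ∑ s ∈ range J, (2 * (1 - p) / 3 * G s + p * (G s)^2) * fr H s -
      (1 / 3 * ((1 - p) * ∑ s ∈ range J, (G s)^2 + 2 * p * ∑ s ∈ range J, (G s)^3 + J / n)) ≤
      1 / 3 * ((1 - p) * ∑ s ∈ range J, ((fr H s)^2 - 1 / n) +
      p * ∑ s ∈ range J, ((fr H s)^3 - 1 / n)) := by
    have hs : (J:ℝ) / n = ∑ s ∈ range J, (1 / (n:ℝ)) := by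
      rw [Finset.sum_const, Finset.card_range, nsmul_eq_mul]; ring
    rw [hs]
    rw [Finset.mul_sum, Finset.mul_sum, ← Finset.sum_add_distrib, ← Finset.sum_add_distrib,
      Finset.mul_sum, ← Finset.sum_sub_distrib, Finset.mul_sum, Finset.mul_sum,
      ← Finset.sum_add_distrib, Finset.mul_sum]
    apply Finset.sum_le_sum
    intro s _
    have hf := fr_nonneg H s
    have hg := hG0 s
    have e1 : 0 ≤ (1 - p) * (fr H s - G s)^2 := mul_nonneg (by linarith) (sq_nonneg _)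
    have e2 : 0 ≤ p * ((fr H s - G s)^2 * (fr H s + 2 * G s)) := by positivity
    nlinarith
  linarith

end Pool.Agent.Lib.MP_9cae81_pr
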