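import Mathlib

open Finset
open scoped BigOperators

namespace Pool.Agent.Lib.MP_9cae81_pr

variable {K : Type*} [AddCommMonoid K]

/-- averaging operator: `(avg w h Φ) H = ∑ i, w i * Φ (H + h i)` -/
def avg {ι : Type*} [Fintype ι] (w : ι → ℝ) (h : ι → K) : Module.End ℝ (K → ℝ) where
  toFun Φ H := ∑ i, w i * Φ (H + h i)
  map_add' Φ Φ' := by
    ext H
    simp [mul_add, Finset.sum_add_distrib]
  map_smul' c Φ := by
    ext H
    simp only [Pi.smul_apply, smul_eq_mul, RingHom.id_apply, Finset.mul_sum]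
    apply Finset.sum_congr rfl
    intro i _
    ring

lemma avg_apply {ι : Type*} [Fintype ι] (w : ι → ℝ) (h : ι → K) (Φ : K → ℝ) (H : K) :
    avg w h Φ H = ∑ i, w i * Φ (H + h i) := rfl

lemma avg_comm {ι ι' : Type*} [Fintype ι] [Fintype ι'] (w : ι → ℝ) (h : ι → K) (w' : ι' → ℝ)
    (h' : ι' → K) : Commute (avg w h) (avg w' h') := by
  unfold Commute SemiconjBy
  ext Φ H
  simp only [Module.End.mul_apply, avg_apply, Finset.mul_sum]
  rw [Finset.sum_comm]
  apply Finset.sum_congr rfl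
  intro i _
  apply Finset.sum_congr rfl
  intro j _
  rw [add_right_comm]
  ring

/-- monotone operators -/
def Mono (T : Module.End ℝ (K → ℝ)) : Prop := ∀ Φ Φ' : K → ℝ, (∀ H, Φ H ≤ Φ' H) → ∀ H, T Φ H ≤ T Φ' H

lemma mono_avg {ι : Type*} [Fintype ι] (w : ι → ℝ) (h : ι → K) (hw : ∀ i, 0 ≤ w i) :
    Mono (avg w h) := by
  intro Φ Φ' hΦ H
  simp only [avg_apply]
  exact Finset.sum_le_sum fun i _ => mul_le_mul_of_nonneg_left (hΦ _) (hw i)

lemma mono_one : Mono (1 : Module.End ℝ (K → ℝ)) := fun _ _ h => h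

lemma Mono.mul {S T : Module.End ℝ (K → ℝ)} (hS : Mono S) (hT : Mono T) : Mono (S * T) :=
  fun Φ Φ' h H => hS _ _ (hT Φ Φ' h) H

lemma Mono.pow {T : Module.End ℝ (K → ℝ)} (hT : Mono T) (n : ℕ) : Mono (T ^ n) := by
  induction n with
  | zero => simpa using mono_one
  | succ n ih => rw [pow_succ]; exact ih.mul hT

lemma Mono.add {S T : Module.End ℝ (K → ℝ)} (hS : Mono S) (hT : Mono T) : Mono (S + T) := by
  intro Φ Φ' h H
  simp only [LinearMap.add_apply, Pi.add_apply]
  exact add_le_add (hS Φ Φ' h H) (hT Φ Φ' h H)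

lemma Mono.smul {S : Module.End ℝ (K → ℝ)} (hS : Mono S) {c : ℝ} (hc : 0 ≤ c) :
    Mono (c • S) := by
  intro Φ Φ' h H
  simp only [LinearMap.smul_apply, Pi.smul_apply, smul_eq_mul]
  exact mul_le_mul_of_nonneg_left (hS Φ Φ' h H) hc

/-- the constant function -/
def one' : K → ℝ := fun _ => 1

lemma avg_one {ι : Type*} [Fintype ι] (w : ι → ℝ) (h : ι → K) (hw : ∑ i, w i = 1) :
    avg w h one' = one' := by
  ext H
  simp [avg_apply, one', hw]

lemma pow_one' {T : Module.End ℝ (K → ℝ)} (hT : T one' = one') (n : ℕ) : (T ^ n) one' = one' := by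
  induction n with
  | zero => simp
  | succ n ih => rw [pow_succ, Module.End.mul_apply, hT, ih]

/-- the telescoping argument -/
lemma telescope {T S : Module.End ℝ (K → ℝ)} (hcomm : Commute T S) (hT : Mono T) (hS : Mono S)
    (hT1 : T one' = one') (hS1 : S one' = one') (Ψ : K → ℝ) (g : ℝ)
    (h : ∀ H, S Ψ H - g ≤ T Ψ H) (M : ℕ) (H : K) :
    (S ^ M) Ψ H - M * g ≤ (T ^ M) Ψ H := by
  induction M generalizing H with
  | zero => simp
  | succ M ih =>
    have h1 : (T ^ (M + 1)) Ψ H ≥ (T ^ M) (S Ψ - g • one') H := by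
      rw [pow_succ, Module.End.mul_apply]
      apply hT.pow M
      intro H
      simp only [Pi.sub_apply, Pi.smul_apply, smul_eq_mul, one', mul_one]
      exact h H
    have h2 : (T ^ M) (S Ψ - g • one') H = S ((T ^ M) Ψ) H - g := by
      rw [map_sub, map_smul, pow_one' hT1]
      have h3 : (T ^ M) (S Ψ) = S ((T ^ M) Ψ) := by
        have := (hcomm.pow_left M).eq
        calc (T ^ M) (S Ψ) = (T ^ M * S) Ψ := rfl
          _ = (S * T ^ M) Ψ := by rw [this]
          _ = _ := rfl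
      rw [h3]
      simp [one']
    have h4 : S ((S ^ M) Ψ - (M * g) • one') H ≤ S ((T ^ M) Ψ) H := by
      apply hS
      intro H
      simp only [Pi.sub_apply, Pi.smul_apply, smul_eq_mul, one', mul_one]
      exact ih H
    rw [map_sub, map_smul, hS1] at h4
    simp only [Pi.sub_apply, Pi.smul_apply, smul_eq_mul, one', mul_one] at h4
    have h5 : (S ^ (M + 1)) Ψ H = S ((S ^ M) Ψ) H := by
      rw [pow_succ', Module.End.mul_apply]
    rw [h5]
    push_cast
    linarith

/-- intertwining -/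
lemma avg_comp {L : Type*} [AddCommMonoid L] {ι : Type*} [Fintype ι] (w : ι → ℝ) (h : ι → K)
    (π : K →+ L) (Φ : L → ℝ) :
    avg w h (Φ ∘ π) = (avg w (π ∘ h) Φ) ∘ π := by
  ext H
  simp [avg_apply]

lemma avg_pow_comp {L : Type*} [AddCommMonoid L] {ι : Type*} [Fintype ι] (w : ι → ℝ) (h : ι → K)
    (π : K →+ L) (Φ : L → ℝ) (M : ℕ) :
    (avg w h ^ M) (Φ ∘ π) = ((avg w (π ∘ h) ^ M) Φ) ∘ π := by
  induction M generalizing Φ with
  | zero => simp
  | succ M ih =>
    rw [pow_succ, Module.End.mul_apply, avg_comp, ih, pow_succ, Module.End.mul_apply]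

/-- the `M`-th power as an average over `M` independent draws -/
lemma avg_pow_eq {ι : Type*} [Fintype ι] (w : ι → ℝ) (h : ι → K) (Φ : K → ℝ) (M : ℕ) (H : K) :
    (avg w h ^ M) Φ H = ∑ F : Fin M → ι, (∏ i, w (F i)) * Φ (H + ∑ i, h (F i)) := by
  induction M generalizing H with
  | zero => simp
  | succ M ih =>
    rw [pow_succ', Module.End.mul_apply, avg_apply]
    rw [← (Fin.consEquiv (fun _ => ι)).sum_comp, Fintype.sum_prod_type]
    apply Finset.sum_congr rfl
    intro i _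
    rw [ih, Finset.mul_sum]
    apply Finset.sum_congr rfl
    intro F _
    simp only [Fin.consEquiv_apply, Fin.prod_univ_succ, Fin.sum_univ_succ, Fin.cons_zero,
      Fin.cons_succ]
    rw [← add_assoc]
    ring

/-- binomial expansion of `(a • 1 + B) ^ M` -/
lemma add_pow_apply (a : ℝ) (B : Module.End ℝ (K → ℝ)) (Φ : K → ℝ) (M : ℕ) (H : K) :
    ((a • (1 : Module.End ℝ (K → ℝ)) + B) ^ M) Φ H =
      ∑ k ∈ range (M + 1), (M.choose k : ℝ) * a ^ (M - k) * (B ^ k) Φ H := by
  have hc : Commute B (a • (1 : Module.End ℝ (K → ℝ))) := by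
    apply Commute.smul_right
    exact Commute.one_right B
  rw [add_comm, hc.add_pow]
  simp only [LinearMap.sum_apply, Finset.sum_apply]
  apply Finset.sum_congr rfl
  intro k _
  have h1 : (B ^ k * (a • (1 : Module.End ℝ (K → ℝ))) ^ (M - k) * ((M.choose k : ℕ) :
      Module.End ℝ (K → ℝ))) = ((M.choose k : ℝ) * a ^ (M - k)) • B ^ k := by
    rw [smul_pow, one_pow, mul_smul_comm, mul_one]
    have h2 : ((M.choose k : ℕ) : Module.End ℝ (K → ℝ)) =
        (M.choose k : ℝ) • (1 : Module.End ℝ (K → ℝ)) := by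
      rw [← nsmul_one, Nat.cast_smul_eq_nsmul ℝ]
    rw [h2, mul_smul_comm, mul_one, smul_smul]
  rw [h1]
  simp

end Pool.Agent.Lib.MP_9cae81_pr
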