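import Pool.Agent.Lib.MP_9cae81_pr.Key

open Finset
open scoped BigOperators

namespace Pool.Agent.Lib.MP_9cae81_pr

/-- superposition of unary costs -/
def iotaH (n : ℕ) : (Fin n × Bool → ℕ) →+ ((Fin n → Bool) → ℕ) where
  toFun U σ := ∑ l, costU l (U l) σ
  map_zero' := by
    ext σ
    simp [costU]
  map_add' U V := by
    ext σ
    simp only [Pi.add_apply, ← Finset.sum_add_distrib]
    apply Finset.sum_congr rfl
    intro l _
    unfold costU
    split_ifs <;> simp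

/-- unary slots as literal weights -/
def costV' {n J : ℕ} : UI n J → (Fin n × Bool → ℕ)
  | none => 0
  | some (l, i) => Pi.single l (i + 1)

lemma iota_costV' {n J : ℕ} : (iotaH n : (Fin n × Bool → ℕ) → ((Fin n → Bool) → ℕ)) ∘
    (costV' : UI n J → _) = costV := by
  funext i
  rcases i with _ | ⟨l, i⟩
  · simp [costV', costV]
  · ext σ
    simp only [Function.comp_apply, costV', costV, iotaH, AddMonoidHom.coe_mk, ZeroHom.coe_mk]
    rw [Finset.sum_eq_single l]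
    · simp
    · intro l' _ hne
      unfold costU
      rw [Pi.single_eq_of_ne hne]
      simp
    · simp

/-- projection on the two literals of `v` -/
def piV {n : ℕ} (v : Fin n) : (Fin n × Bool → ℕ) →+ ℕ × ℕ where
  toFun U := (U (v, true), U (v, false))
  map_zero' := rfl
  map_add' _ _ := rfl

/-- the minimum of two costs -/
def mn (a : ℕ × ℕ) : ℝ := ((min a.1 a.2 : ℕ) : ℝ)

lemma mn_nonneg (a : ℕ × ℕ) : 0 ≤ mn a := by unfold mn; positivity

lemma sum_mn_le {n : ℕ} (U : Fin n × Bool → ℕ) :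
    ∑ v, (mn ∘ piV v) U ≤ PsiR (iotaH n U) := by
  unfold PsiR
  have h : ∑ v, min (U (v, true)) (U (v, false)) ≤ Psi (iotaH n U) := by
    apply le_Psi
    intro σ
    simp only [iotaH, AddMonoidHom.coe_mk, ZeroHom.coe_mk]
    rw [Fintype.sum_prod_type]
    apply Finset.sum_le_sum
    intro v _
    rw [Fintype.sum_bool]
    unfold costU
    cases hσ : σ v <;> simp
  have h2 : ∑ v, (mn ∘ piV v) U = ((∑ v, min (U (v, true)) (U (v, false)) : ℕ) : ℝ) := by
    push_cast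
    apply Finset.sum_congr rfl
    intro v _
    simp [mn, piV]
  rw [h2]
  exact_mod_cast h

/-- the non-null part of the projected operator -/
noncomputable def Bop (n J : ℕ) (B : ℕ → ℝ) : Module.End ℝ (ℕ × ℕ → ℝ) :=
  avg (fun x : Bool × Fin J => (B x.2 - B (x.2 + 1)) / (2 * n))
    (fun x => if x.1 then ((x.2 : ℕ) + 1, 0) else (0, (x.2 : ℕ) + 1))

lemma proj_op {n J : ℕ} (hn : 0 < n) (B : ℕ → ℝ) (hJ : B J = 0) (v : Fin n) :
    avg (wU B) (piV v ∘ (costV' : UI n J → _)) =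
      (1 - B 0 / n) • (1 : Module.End ℝ (ℕ × ℕ → ℝ)) + Bop n J B := by
  have hn' : (0:ℝ) < n := by exact_mod_cast hn
  ext Φ a
  simp only [LinearMap.add_apply, LinearMap.smul_apply, Module.End.one_apply, Pi.add_apply,
    Pi.smul_apply, smul_eq_mul, avg_apply, Bop]
  rw [Fintype.sum_option, Fintype.sum_prod_type, Fintype.sum_prod_type, Fintype.sum_prod_type]
  simp only [wU, costV', Function.comp_apply, map_zero, add_zero, Fintype.sum_bool, if_true,
    Bool.false_eq_true, if_false]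
  have h1 : ∀ u : Fin n, ∀ s : Bool, ∑ i : Fin J, (B i - B (i + 1)) / (2 * n) *
      Φ (a + piV v (Pi.single (u, s) ((i:ℕ) + 1))) =
      B 0 / (2 * n) * Φ a + if u = v then (∑ i : Fin J, (B i - B (i + 1)) / (2 * n) *
        (Φ (a + if s then ((i : ℕ) + 1, 0) else (0, (i : ℕ) + 1)) - Φ a)) else 0 := by
    intro u s
    by_cases huv : u = v
    · subst huv
      rw [if_pos rfl]
      simp_rw [mul_sub]
      rw [Finset.sum_sub_distrib, ← Finset.sum_mul, ← Finset.sum_div, sum_tail, hJ]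
      have h2 : ∀ i : Fin J, piV u (Pi.single (u, s) ((i:ℕ) + 1)) =
          if s then ((i : ℕ) + 1, 0) else (0, (i : ℕ) + 1) := by
        intro i
        cases s <;> simp [piV, Pi.single_apply]
      simp_rw [h2]
      ring
    · rw [if_neg huv, add_zero]
      have h2 : ∀ i : Fin J, piV v (Pi.single (u, s) ((i:ℕ) + 1)) = 0 := by
        intro i
        simp [piV, Pi.single_apply, Ne.symm huv]
      simp_rw [h2, add_zero]
      rw [← Finset.sum_mul, ← Finset.sum_div, sum_tail, hJ]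
      ring
  simp_rw [h1]
  rw [Finset.sum_add_distrib, Finset.sum_add_distrib, Finset.sum_add_distrib]
  simp only [Finset.sum_ite_eq', Finset.mem_univ, if_true, Finset.sum_const, Finset.card_univ,
    Fintype.card_fin, nsmul_eq_mul, Bool.false_eq_true, if_false]
  simp_rw [mul_sub]
  rw [Finset.sum_sub_distrib, Finset.sum_sub_distrib, ← Finset.sum_mul, ← Finset.sum_div, sum_tail,
    hJ]
  field_simp
  ring

/-- lower bound for one variable -/
lemma one_var_ge {n J : ℕ} (hn : 0 < n) {B : ℕ → ℝ} (hB : Antitone B) (hB0 : B 0 ≤ 1)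
    (hJ : B J = 0) (v : Fin n) (M : ℕ) (hM : 3 ≤ M) :
    (1 - B 0 / n) ^ M * ((M.choose 2 : ℝ) * (Bop n J B ^ 2) mn 0 +
      (M.choose 3 : ℝ) * (Bop n J B ^ 3) mn 0) ≤
      (avg (wU B) (piV v ∘ (costV' : UI n J → _)) ^ M) mn 0 := by
  have hn' : (1:ℝ) ≤ n := by exact_mod_cast hn
  rw [proj_op hn B hJ v, add_pow_apply]
  have hB00 : 0 ≤ B 0 := by
    have := hB (Nat.zero_le J)
    rw [hJ] at this; exact this
  have ha1 : 1 - B 0 / n ≤ 1 := by
    have : 0 ≤ B 0 / n := by positivity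
    linarith
  have ha0 : 0 ≤ 1 - B 0 / n := by
    have : B 0 / n ≤ 1 := by
      rw [div_le_one (by linarith)]; linarith
    linarith
  have hmono : Mono (Bop n J B) := by
    apply mono_avg
    intro x
    apply div_nonneg _ (by positivity)
    have := hB (Nat.le_succ (x.2 : ℕ))
    simp only [Nat.succ_eq_add_one] at this
    linarith
  have hnn : ∀ k, 0 ≤ (Bop n J B ^ k) mn 0 := by
    intro k
    have h := hmono.pow k (0 : ℕ × ℕ → ℝ) mn (fun a => mn_nonneg a) 0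
    simpa using h
  have hterm : ∀ k ≤ M, (1 - B 0 / n) ^ M * ((M.choose k : ℝ) * (Bop n J B ^ k) mn 0) ≤
      (M.choose k : ℝ) * (1 - B 0 / n) ^ (M - k) * (Bop n J B ^ k) mn 0 := by
    intro k _
    have h1 : (1 - B 0 / n) ^ M ≤ (1 - B 0 / n) ^ (M - k) :=
      pow_le_pow_of_le_one ha0 ha1 (Nat.sub_le _ _)
    have h2 : 0 ≤ (M.choose k : ℝ) * (Bop n J B ^ k) mn 0 := mul_nonneg (by positivity) (hnn k)
    calc _ ≤ (1 - B 0 / n) ^ (M - k) * ((M.choose k : ℝ) * (Bop n J B ^ k) mn 0) :=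
          mul_le_mul_of_nonneg_right h1 h2
      _ = _ := by ring
  have hsub : ({2, 3} : Finset ℕ) ⊆ range (M + 1) := by
    intro k hk
    simp only [Finset.mem_insert, Finset.mem_singleton] at hk
    rw [Finset.mem_range]
    omega
  have h3 := Finset.sum_le_sum_of_subset_of_nonneg (f := fun k => (M.choose k : ℝ) *
    (1 - B 0 / n) ^ (M - k) * (Bop n J B ^ k) mn 0) hsub (by
      intro k _ _
      exact mul_nonneg (mul_nonneg (by positivity) (pow_nonneg ha0 _)) (hnn k))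
  rw [Finset.sum_pair (by norm_num)] at h3
  refine le_trans ?_ h3
  rw [mul_add]
  exact add_le_add (hterm 2 (by omega)) (hterm 3 (by omega))

/-- lower bound for the unary system -/
lemma opU_pow_ge {n J : ℕ} (hn : 0 < n) {B : ℕ → ℝ} (hB : Antitone B) (hB0 : B 0 ≤ 1)
    (hJ : B J = 0) (M : ℕ) (hM : 3 ≤ M) :
    n * ((1 - B 0 / n) ^ M * ((M.choose 2 : ℝ) * (Bop n J B ^ 2) mn 0 +
      (M.choose 3 : ℝ) * (Bop n J B ^ 3) mn 0)) ≤ (opU n J B ^ M) PsiR 0 := by
  have h1 : (opU n J B ^ M) PsiR 0 =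
      (avg (wU B) (costV' : UI n J → _) ^ M) (PsiR ∘ (iotaH n)) 0 := by
    rw [avg_pow_comp, iota_costV']
    simp [opU]
  rw [h1]
  have hmono : Mono (avg (wU B) (costV' : UI n J → _)) := mono_avg _ _ (wU_nonneg hB hB0)
  have h2 := hmono.pow M (∑ v, (mn ∘ piV v)) (PsiR ∘ (iotaH n)) (fun U => by
    have := sum_mn_le U
    simpa using this) 0
  refine le_trans ?_ h2
  rw [map_sum, Finset.sum_apply]
  have h3 : ∀ v : Fin n, (1 - B 0 / n) ^ M * ((M.choose 2 : ℝ) * (Bop n J B ^ 2) mn 0 +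
      (M.choose 3 : ℝ) * (Bop n J B ^ 3) mn 0) ≤
      (avg (wU B) (costV' : UI n J → _) ^ M) (mn ∘ piV v) 0 := by
    intro v
    rw [avg_pow_comp]
    simp only [Function.comp_apply, map_zero]
    exact one_var_ge hn hB hB0 hJ v M hM
  calc _ = ∑ v : Fin n, (1 - B 0 / n) ^ M * ((M.choose 2 : ℝ) * (Bop n J B ^ 2) mn 0 +
      (M.choose 3 : ℝ) * (Bop n J B ^ 3) mn 0) := by
        rw [Finset.sum_const, Finset.card_univ, Fintype.card_fin, nsmul_eq_mul]
    _ ≤ _ := Finset.sum_le_sum fun v _ => h3 v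

/-- second-order sum -/
noncomputable def S2 (J : ℕ) (B : ℕ → ℝ) : ℝ :=
  ∑ i : Fin J, ∑ j : Fin J, (B i - B (i + 1)) * (B j - B (j + 1)) *
    ((min ((i:ℕ) + 1) ((j:ℕ) + 1) : ℕ) : ℝ)

/-- third-order sum -/
noncomputable def S3 (J : ℕ) (B : ℕ → ℝ) : ℝ :=
  ∑ i : Fin J, ∑ j : Fin J, ∑ k : Fin J, (B i - B (i + 1)) * (B j - B (j + 1)) *
    (B k - B (k + 1)) * ((min ((i:ℕ) + 1) (((j:ℕ) + 1) + ((k:ℕ) + 1)) : ℕ) : ℝ)

lemma Bop_sq {n J : ℕ} (B : ℕ → ℝ) :
    (Bop n J B ^ 2) mn 0 = 2 * S2 J B / (2 * n) ^ 2 := by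
  rw [pow_two, Module.End.mul_apply]
  simp only [Bop, avg_apply, zero_add]
  simp only [Fintype.sum_prod_type, Fintype.sum_bool, if_true, Bool.false_eq_true, if_false]
  simp only [mn, Prod.mk_add_mk, zero_add, add_zero, Nat.zero_min, Nat.min_zero, Nat.cast_zero,
    mul_zero, Finset.sum_const_zero]
  unfold S2
  rw [Finset.mul_sum, Finset.sum_div]
  rw [← Finset.sum_add_distrib]
  apply Finset.sum_congr rfl
  intro i _
  rw [Finset.mul_sum, Finset.mul_sum, Finset.mul_sum, Finset.sum_div, ← Finset.sum_add_distrib]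
  apply Finset.sum_congr rfl
  intro j _
  rw [min_comm ((j:ℕ) + 1) ((i:ℕ) + 1)]
  ring

lemma Bop_cube {n J : ℕ} (B : ℕ → ℝ) :
    (Bop n J B ^ 3) mn 0 = 6 * S3 J B / (2 * n) ^ 3 := by
  rw [pow_succ, pow_two, Module.End.mul_apply, Module.End.mul_apply]
  simp only [Bop, avg_apply, zero_add]
  simp only [Fintype.sum_prod_type, Fintype.sum_bool, if_true, Bool.false_eq_true, if_false]
  simp only [mn, Prod.mk_add_mk, zero_add, add_zero, Nat.zero_min, Nat.min_zero, Nat.cast_zero,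
    mul_zero, Finset.sum_const_zero]
  have e1 : ∀ (f : Fin J → Fin J → Fin J → ℝ), ∑ i : Fin J, ∑ j : Fin J, ∑ k : Fin J, f i j k =
      ∑ i : Fin J, ∑ j : Fin J, ∑ k : Fin J, f j i k := fun f => Finset.sum_comm
  have e2 : ∀ (f : Fin J → Fin J → Fin J → ℝ), ∑ i : Fin J, ∑ j : Fin J, ∑ k : Fin J, f i j k =
      ∑ i : Fin J, ∑ j : Fin J, ∑ k : Fin J, f k j i := by
    intro f
    rw [e1 f]
    have h3 : ∀ j : Fin J, ∑ i : Fin J, ∑ k : Fin J, f j i k = ∑ k : Fin J, ∑ i : Fin J, f j i k :=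
      fun j => Finset.sum_comm
    have h4 : ∑ i : Fin J, ∑ j : Fin J, ∑ k : Fin J, f j i k =
        ∑ j : Fin J, ∑ i : Fin J, ∑ k : Fin J, f j i k := Finset.sum_comm
    rw [h4]
    simp_rw [h3]
    rw [Finset.sum_comm]
    apply Finset.sum_congr rfl
    intro k _
    exact Finset.sum_comm
  set w : Fin J → ℝ := fun i => (B i - B (i + 1)) with hw
  set T : Fin J → Fin J → Fin J → ℝ := fun i j k => w i * w j * w k *
    ((min ((i:ℕ) + 1) (((j:ℕ) + 1) + ((k:ℕ) + 1)) : ℕ) : ℝ) with hT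
  have hS : S3 J B = ∑ i, ∑ j, ∑ k, T i j k := rfl
  have hS' : S3 J B = ∑ i, ∑ j, ∑ k, T j i k := by rw [hS]; exact e1 T
  have hS'' : S3 J B = ∑ i, ∑ j, ∑ k, T k j i := by rw [hS]; exact e2 T
  have hgoal : 6 * S3 J B / (2 * (n:ℝ)) ^ 3 =
      ∑ i, ∑ j, ∑ k, (2 * T i j k + 2 * T j i k + 2 * T k j i) / (2 * (n:ℝ)) ^ 3 := by
    simp_rw [← Finset.sum_div, Finset.sum_add_distrib, ← Finset.mul_sum]
    rw [← hS, ← hS', ← hS'']
    ring
  rw [hgoal]
  simp only [Finset.mul_sum, ← Finset.sum_add_distrib]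
  apply Finset.sum_congr rfl
  intro i _
  apply Finset.sum_congr rfl
  intro j _
  apply Finset.sum_congr rfl
  intro k _
  simp only [hT, hw]
  rw [min_comm ((i:ℕ) + 1 + ((j:ℕ) + 1)) ((k:ℕ) + 1), min_comm ((i:ℕ) + 1 + ((k:ℕ) + 1)) ((j:ℕ) + 1),
    min_comm ((j:ℕ) + 1 + ((k:ℕ) + 1)) ((i:ℕ) + 1)]
  rw [add_comm ((j:ℕ) + 1) ((i:ℕ) + 1)]
  ring

end Pool.Agent.Lib.MP_9cae81_pr
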