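import Pool.Agent.Lib.MP_9cae81_pr.Right

open Finset Filter
open scoped BigOperators Topology

namespace Pool.Agent.Lib.MP_9cae81_pr

/-- the trial tail `(2/3)_s / s!` -/
noncomputable def gs : ℕ → ℝ
  | 0 => 1
  | (s + 1) => gs s * ((s + 2 / 3) / (s + 1))

lemma gs_pos (s : ℕ) : 0 < gs s := by
  induction s with
  | zero => simp [gs]
  | succ s ih => rw [gs]; positivity

lemma gs_succ (s : ℕ) : ((s:ℝ) + 1) * gs (s + 1) = (s + 2 / 3) * gs s := by
  rw [gs]; field_simp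

lemma gs_sub (s : ℕ) : gs s - gs (s + 1) = gs s / (3 * (s + 1)) := by
  rw [gs]; field_simp; ring

lemma gs_anti : Antitone gs := by
  apply antitone_nat_of_succ_le
  intro s
  have h1 := gs_sub s
  have h2 : 0 ≤ gs s / (3 * (s + 1)) := by have := gs_pos s; positivity
  linarith

lemma gs_le_one (s : ℕ) : gs s ≤ 1 := gs_anti (Nat.zero_le s)

/-- truncation -/
noncomputable def gT (J s : ℕ) : ℝ := if s < J then gs s else 0

lemma gT_nonneg (J s : ℕ) : 0 ≤ gT J s := by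
  unfold gT; split_ifs
  · exact (gs_pos s).le
  · exact le_rfl

lemma gT_anti (J : ℕ) : Antitone (gT J) := by
  intro s t hst
  unfold gT
  split_ifs with h1 h2
  · exact gs_anti hst
  · omega
  · exact (gs_pos s).le
  · exact le_rfl

lemma gT_self (J : ℕ) : gT J J = 0 := by simp [gT]

lemma gT_zero {J : ℕ} (hJ : 0 < J) : gT J 0 = 1 := by simp [gT, hJ, gs]

/-- tail sums -/
lemma tail_sum (B : ℕ → ℝ) (J s : ℕ) (hs : s ≤ J) :
    ∑ i : Fin J, (if s ≤ (i:ℕ) then (B i - B (i + 1)) else 0) = B s - B J := by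
  rw [Fin.sum_univ_eq_sum_range (fun i => if s ≤ i then (B i - B (i + 1)) else 0) J]
  induction J, hs using Nat.le_induction with
  | base =>
    rw [Finset.sum_eq_zero]
    · ring
    · intro i hi
      rw [Finset.mem_range] at hi
      rw [if_neg (by omega)]
  | succ J hJ ih =>
    rw [Finset.sum_range_succ, ih, if_pos hJ]
    ring

lemma S2_eq (J : ℕ) (B : ℕ → ℝ) (hJ : B J = 0) : S2 J B = ∑ s ∈ range J, (B s)^2 := by
  unfold S2
  have h1 : ∀ i j : Fin J, ((min ((i:ℕ) + 1) ((j:ℕ) + 1) : ℕ) : ℝ) =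
      ∑ s ∈ range J, (if s ≤ (i:ℕ) then (1:ℝ) else 0) * (if s ≤ (j:ℕ) then (1:ℝ) else 0) := by
    intro i j
    have h2 : ∀ s ∈ range J, (if s ≤ (i:ℕ) then (1:ℝ) else 0) * (if s ≤ (j:ℕ) then (1:ℝ) else 0) =
        if s ∈ range (min ((i:ℕ) + 1) ((j:ℕ) + 1)) then 1 else 0 := by
      intro s _
      have hm : (s ∈ range (min ((i:ℕ) + 1) ((j:ℕ) + 1))) ↔ (s ≤ (i:ℕ) ∧ s ≤ (j:ℕ)) := by
        rw [mem_range]; omega
      by_cases h1 : s ≤ (i:ℕ) <;> by_cases h2 : s ≤ (j:ℕ)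
      · rw [if_pos h1, if_pos h2, if_pos (hm.2 ⟨h1, h2⟩)]; simp
      · have hn : ¬ (s ∈ range (min ((i:ℕ) + 1) ((j:ℕ) + 1))) := fun h => h2 (hm.1 h).2
        simp only [h2, hn, if_false, mul_zero]
      · have hn : ¬ (s ∈ range (min ((i:ℕ) + 1) ((j:ℕ) + 1))) := fun h => h1 (hm.1 h).1
        simp only [h1, hn, if_false, zero_mul]
      · have hn : ¬ (s ∈ range (min ((i:ℕ) + 1) ((j:ℕ) + 1))) := fun h => h1 (hm.1 h).1
        simp only [h1, hn, if_false, zero_mul]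
    rw [Finset.sum_congr rfl h2, Finset.sum_ite_mem]
    have h3 : range J ∩ range (min ((i:ℕ) + 1) ((j:ℕ) + 1)) =
        range (min ((i:ℕ) + 1) ((j:ℕ) + 1)) := by
      apply inter_eq_right.2
      intro s hs
      rw [mem_range] at hs ⊢
      have := i.2
      omega
    rw [h3]
    simp
  simp_rw [h1]
  have h4 : ∀ s ∈ range J, (B s)^2 = ∑ i : Fin J, ∑ j : Fin J,
      (B i - B (i + 1)) * (B j - B (j + 1)) *
        ((if s ≤ (i:ℕ) then (1:ℝ) else 0) * (if s ≤ (j:ℕ) then (1:ℝ) else 0)) := by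
    intro s hs
    have h5 := tail_sum B J s (mem_range.1 hs).le
    rw [hJ, sub_zero] at h5
    rw [sq]
    conv_lhs => rw [← h5]
    rw [Finset.sum_mul_sum]
    apply Finset.sum_congr rfl
    intro i _
    apply Finset.sum_congr rfl
    intro j _
    by_cases h1 : s ≤ (i:ℕ) <;> by_cases h2 : s ≤ (j:ℕ) <;> simp [h1, h2]
  rw [Finset.sum_congr rfl h4]
  simp_rw [Finset.mul_sum]
  rw [Finset.sum_comm]
  have h6 : ∀ i : Fin J, ∑ j : Fin J, ∑ s ∈ range J, (B i - B (i + 1)) * (B j - B (j + 1)) *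
        ((if s ≤ (i:ℕ) then (1:ℝ) else 0) * (if s ≤ (j:ℕ) then (1:ℝ) else 0)) =
      ∑ s ∈ range J, ∑ j : Fin J, (B i - B (i + 1)) * (B j - B (j + 1)) *
        ((if s ≤ (i:ℕ) then (1:ℝ) else 0) * (if s ≤ (j:ℕ) then (1:ℝ) else 0)) :=
    fun i => Finset.sum_comm
  rw [Finset.sum_comm]
  simp_rw [h6]
  exact Finset.sum_comm

/-- the convolution term -/
noncomputable def NN (J : ℕ) (G : ℕ → ℝ) : ℝ :=
  ∑ i : Fin J, (G i - G (i + 1)) * ∑ x ∈ antidiagonal (i:ℕ), G x.1 * G x.2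

lemma nat_identity (i j k : ℕ) :
    min (i + 1) (j + 1) + min (i + 1) (k + 1) = min (i + 1) ((j + 1) + (k + 1)) +
      ((range (i + 1)).filter (fun r => r ≤ j ∧ i - r ≤ k)).card := by
  have h : (range (i + 1)).filter (fun r => r ≤ j ∧ i - r ≤ k) = Icc (i - k) (min i j) := by
    ext r
    simp only [mem_filter, mem_range, mem_Icc]
    omega
  rw [h, Nat.card_Icc]
  omega

lemma S3_eq (J : ℕ) (G : ℕ → ℝ) (hJ : G J = 0) :
    S3 J G = 2 * G 0 * ∑ s ∈ range J, (G s)^2 - NN J G := by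
  have hG0 : ∑ i : Fin J, (G i - G (i + 1)) = G 0 := by rw [sum_tail, hJ]; ring
  have hS2 := S2_eq J G hJ
  unfold S2 at hS2
  have h1 : ∀ i j k : Fin J, ((min ((i:ℕ) + 1) (((j:ℕ) + 1) + ((k:ℕ) + 1)) : ℕ) : ℝ) =
      ((min ((i:ℕ) + 1) ((j:ℕ) + 1) : ℕ) : ℝ) + ((min ((i:ℕ) + 1) ((k:ℕ) + 1) : ℕ) : ℝ) -
      ∑ x ∈ antidiagonal (i:ℕ), (if x.1 ≤ (j:ℕ) then (1:ℝ) else 0) *
        (if x.2 ≤ (k:ℕ) then (1:ℝ) else 0) := by
    intro i j k
    have h2 := nat_identity i j k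
    have h3 : ∑ x ∈ antidiagonal (i:ℕ), (if x.1 ≤ (j:ℕ) then (1:ℝ) else 0) *
        (if x.2 ≤ (k:ℕ) then (1:ℝ) else 0) =
        (((range ((i:ℕ) + 1)).filter (fun r => r ≤ (j:ℕ) ∧ (i:ℕ) - r ≤ (k:ℕ))).card : ℝ) := by
      rw [Finset.Nat.sum_antidiagonal_eq_sum_range_succ_mk, Finset.card_filter]
      push_cast
      apply Finset.sum_congr rfl
      intro r _
      by_cases ha : r ≤ (j:ℕ) <;> by_cases hb : (i:ℕ) - r ≤ (k:ℕ) <;> simp [ha, hb]
    rw [h3]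
    have h4 : (((min ((i:ℕ) + 1) ((j:ℕ) + 1) + min ((i:ℕ) + 1) ((k:ℕ) + 1) : ℕ)) : ℝ) =
        ((min ((i:ℕ) + 1) (((j:ℕ) + 1) + ((k:ℕ) + 1)) + ((range ((i:ℕ) + 1)).filter
          (fun r => r ≤ (j:ℕ) ∧ (i:ℕ) - r ≤ (k:ℕ))).card : ℕ) : ℝ) := by rw [h2]
    rw [Nat.cast_add, Nat.cast_add] at h4
    linarith
  unfold S3 NN
  simp_rw [h1]
  have e1 : ∑ i : Fin J, ∑ j : Fin J, ∑ k : Fin J, (G i - G (i + 1)) * (G j - G (j + 1)) *
      (G k - G (k + 1)) * ((min ((i:ℕ) + 1) ((j:ℕ) + 1) : ℕ) : ℝ) =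
      G 0 * ∑ s ∈ range J, (G s)^2 := by
    rw [← hS2, ← hG0, Finset.mul_sum]
    apply Finset.sum_congr rfl
    intro i _
    rw [Finset.mul_sum]
    apply Finset.sum_congr rfl
    intro j _
    rw [Finset.sum_mul]
    apply Finset.sum_congr rfl
    intro k _
    ring
  have e2 : ∑ i : Fin J, ∑ j : Fin J, ∑ k : Fin J, (G i - G (i + 1)) * (G j - G (j + 1)) *
      (G k - G (k + 1)) * ((min ((i:ℕ) + 1) ((k:ℕ) + 1) : ℕ) : ℝ) =
      G 0 * ∑ s ∈ range J, (G s)^2 := by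
    rw [← e1]
    apply Finset.sum_congr rfl
    intro i _
    rw [Finset.sum_comm]
    apply Finset.sum_congr rfl
    intro j _
    apply Finset.sum_congr rfl
    intro k _
    ring
  have e3 : ∑ i : Fin J, ∑ j : Fin J, ∑ k : Fin J, (G i - G (i + 1)) * (G j - G (j + 1)) *
      (G k - G (k + 1)) * (∑ x ∈ antidiagonal (i:ℕ), (if x.1 ≤ (j:ℕ) then (1:ℝ) else 0) *
        (if x.2 ≤ (k:ℕ) then (1:ℝ) else 0)) =
      ∑ i : Fin J, (G i - G (i + 1)) * ∑ x ∈ antidiagonal (i:ℕ), G x.1 * G x.2 := by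
    apply Finset.sum_congr rfl
    intro i _
    have h5 : ∀ x ∈ antidiagonal (i:ℕ), G x.1 * G x.2 = ∑ j : Fin J, ∑ k : Fin J,
        (G j - G (j + 1)) * (G k - G (k + 1)) * ((if x.1 ≤ (j:ℕ) then (1:ℝ) else 0) *
        (if x.2 ≤ (k:ℕ) then (1:ℝ) else 0)) := by
      intro x hx
      rw [HasAntidiagonal.mem_antidiagonal] at hx
      have hi := i.2
      have h6 := tail_sum G J x.1 (by omega)
      have h7 := tail_sum G J x.2 (by omega)
      rw [hJ, sub_zero] at h6 h7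
      conv_lhs => rw [← h6, ← h7]
      rw [Finset.sum_mul_sum]
      apply Finset.sum_congr rfl
      intro j _
      apply Finset.sum_congr rfl
      intro k _
      by_cases ha : x.1 ≤ (j:ℕ) <;> by_cases hb : x.2 ≤ (k:ℕ) <;> simp [ha, hb]
    rw [Finset.sum_congr rfl h5]
    have h6 : ∑ x ∈ antidiagonal (i:ℕ), ∑ j : Fin J, ∑ k : Fin J,
        (G j - G (j + 1)) * (G k - G (k + 1)) * ((if x.1 ≤ (j:ℕ) then (1:ℝ) else 0) *
        (if x.2 ≤ (k:ℕ) then (1:ℝ) else 0)) = ∑ j : Fin J, ∑ k : Fin J,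
        ∑ x ∈ antidiagonal (i:ℕ),
        (G j - G (j + 1)) * (G k - G (k + 1)) * ((if x.1 ≤ (j:ℕ) then (1:ℝ) else 0) *
        (if x.2 ≤ (k:ℕ) then (1:ℝ) else 0)) := by
      rw [Finset.sum_comm]
      apply Finset.sum_congr rfl
      intro j _
      exact Finset.sum_comm
    rw [h6, Finset.mul_sum]
    apply Finset.sum_congr rfl
    intro j _
    rw [Finset.mul_sum]
    apply Finset.sum_congr rfl
    intro k _
    rw [Finset.mul_sum, Finset.mul_sum]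
    apply Finset.sum_congr rfl
    intro x _
    ring
  have e4 : ∀ i j k : Fin J, (G i - G (i + 1)) * (G j - G (j + 1)) * (G k - G (k + 1)) *
      (((min ((i:ℕ) + 1) ((j:ℕ) + 1) : ℕ) : ℝ) + ((min ((i:ℕ) + 1) ((k:ℕ) + 1) : ℕ) : ℝ) -
      ∑ x ∈ antidiagonal (i:ℕ), (if x.1 ≤ (j:ℕ) then (1:ℝ) else 0) *
        (if x.2 ≤ (k:ℕ) then (1:ℝ) else 0)) =
      (G i - G (i + 1)) * (G j - G (j + 1)) * (G k - G (k + 1)) *
        ((min ((i:ℕ) + 1) ((j:ℕ) + 1) : ℕ) : ℝ) +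
      (G i - G (i + 1)) * (G j - G (j + 1)) * (G k - G (k + 1)) *
        ((min ((i:ℕ) + 1) ((k:ℕ) + 1) : ℕ) : ℝ) -
      (G i - G (i + 1)) * (G j - G (j + 1)) * (G k - G (k + 1)) *
      ∑ x ∈ antidiagonal (i:ℕ), (if x.1 ≤ (j:ℕ) then (1:ℝ) else 0) *
        (if x.2 ≤ (k:ℕ) then (1:ℝ) else 0) := fun i j k => by ring
  simp_rw [e4, Finset.sum_sub_distrib, Finset.sum_add_distrib]
  rw [e1, e2, e3]
  ring

/-- `a_i = ∑_{r+t=i} g_r g_t` -/
noncomputable def aa (i : ℕ) : ℝ := ∑ x ∈ antidiagonal i, gs x.1 * gs x.2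

lemma aa_zero : aa 0 = 1 := by simp [aa, gs]

lemma aa_succ (i : ℕ) : ((i:ℝ) + 1) * aa (i + 1) = (i + 4 / 3) * aa i := by
  have h1 : ((i:ℝ) + 1) * aa (i + 1) = ∑ x ∈ antidiagonal (i + 1), ((x.1:ℝ) + x.2) *
      (gs x.1 * gs x.2) := by
    unfold aa
    rw [Finset.mul_sum]
    apply Finset.sum_congr rfl
    intro x hx
    rw [HasAntidiagonal.mem_antidiagonal] at hx
    have : ((x.1:ℝ) + x.2) = (i:ℝ) + 1 := by exact_mod_cast hx
    rw [this]
  have h2 : ∑ x ∈ antidiagonal (i + 1), ((x.1:ℝ) + x.2) * (gs x.1 * gs x.2) =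
      ∑ x ∈ antidiagonal (i + 1), (x.1:ℝ) * (gs x.1 * gs x.2) +
      ∑ x ∈ antidiagonal (i + 1), (x.2:ℝ) * (gs x.1 * gs x.2) := by
    rw [← Finset.sum_add_distrib]
    apply Finset.sum_congr rfl
    intro x _
    ring
  have h3 : ∑ x ∈ antidiagonal (i + 1), (x.1:ℝ) * (gs x.1 * gs x.2) =
      ∑ x ∈ antidiagonal i, ((x.1:ℝ) + 2 / 3) * (gs x.1 * gs x.2) := by
    rw [Finset.Nat.sum_antidiagonal_succ]
    simp only [Nat.cast_zero, zero_mul, zero_add]
    apply Finset.sum_congr rfl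
    intro x _
    have := gs_succ x.1
    push_cast
    rw [← mul_assoc, this]
    ring
  have h4 : ∑ x ∈ antidiagonal (i + 1), (x.2:ℝ) * (gs x.1 * gs x.2) =
      ∑ x ∈ antidiagonal i, ((x.2:ℝ) + 2 / 3) * (gs x.1 * gs x.2) := by
    rw [Finset.Nat.sum_antidiagonal_succ']
    simp only [Nat.cast_zero, zero_mul, add_zero, zero_add]
    apply Finset.sum_congr rfl
    intro x _
    have := gs_succ x.2
    push_cast
    have h5 : ((x.2:ℝ) + 1) * (gs x.1 * gs (x.2 + 1)) = gs x.1 * (((x.2:ℝ) + 1) * gs (x.2 + 1)) := by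
      ring
    rw [h5, this]
    ring
  rw [h1, h2, h3, h4, ← Finset.sum_add_distrib]
  unfold aa
  rw [Finset.mul_sum]
  apply Finset.sum_congr rfl
  intro x hx
  rw [HasAntidiagonal.mem_antidiagonal] at hx
  have : ((x.1:ℝ) + x.2) = (i:ℝ) := by exact_mod_cast hx
  rw [← this]
  ring

lemma aa_pos (i : ℕ) : 0 < aa i := by
  induction i with
  | zero => rw [aa_zero]; norm_num
  | succ i ih =>
    have h := aa_succ i
    have h1 : 0 < ((i:ℝ) + 4 / 3) * aa i := by positivity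
    rw [← h] at h1
    exact (mul_pos_iff_of_pos_left (by positivity)).1 h1

/-- `e_i = g_i a_i` -/
noncomputable def ee (i : ℕ) : ℝ := gs i * aa i

lemma ee_anti : Antitone ee := by
  apply antitone_nat_of_succ_le
  intro i
  unfold ee
  have h1 := gs_succ i
  have h2 := aa_succ i
  have h3 : ((i:ℝ) + 1)^2 * (gs (i + 1) * aa (i + 1)) =
      ((i + 2 / 3) * (i + 4 / 3)) * (gs i * aa i) := by
    calc _ = (((i:ℝ) + 1) * gs (i + 1)) * (((i:ℝ) + 1) * aa (i + 1)) := by ring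
      _ = _ := by rw [h1, h2]; ring
  have h4 : ((i:ℝ) + 1)^2 * (gs (i + 1) * aa (i + 1)) ≤ ((i:ℝ) + 1)^2 * (gs i * aa i) := by
    rw [h3]
    apply mul_le_mul_of_nonneg_right _ (mul_pos (gs_pos i) (aa_pos i)).le
    nlinarith
  exact le_of_mul_le_mul_left h4 (by positivity)

lemma ee_le_one (i : ℕ) : ee i ≤ 1 := by
  have := ee_anti (Nat.zero_le i)
  simpa [ee, aa_zero, gs] using this

lemma ee_pos (i : ℕ) : 0 < ee i := mul_pos (gs_pos i) (aa_pos i)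

lemma NN_le (J : ℕ) : NN J (gT J) ≤ 1 + ∑ i ∈ range J, ee i / (3 * (i + 1)) := by
  unfold NN
  have h1 : ∀ i : Fin J, (gT J i - gT J (i + 1)) * ∑ x ∈ antidiagonal (i:ℕ), gT J x.1 * gT J x.2 =
      (gT J i - gT J (i + 1)) * aa i := by
    intro i
    congr 1
    unfold aa
    apply Finset.sum_congr rfl
    intro x hx
    rw [HasAntidiagonal.mem_antidiagonal] at hx
    have hi := i.2
    unfold gT
    rw [if_pos (by omega), if_pos (by omega)]
  simp_rw [h1]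
  rw [Fin.sum_univ_eq_sum_range (fun i => (gT J i - gT J (i + 1)) * aa i) J]
  rcases Nat.eq_zero_or_pos J with hJ | hJ
  · subst hJ; simp
  · obtain ⟨m, rfl⟩ : ∃ m, J = m + 1 := ⟨J - 1, by omega⟩
    rw [Finset.sum_range_succ, Finset.sum_range_succ]
    have h2 : ∀ i ∈ range m, (gT (m + 1) i - gT (m + 1) (i + 1)) * aa i = ee i / (3 * (i + 1)) := by
      intro i hi
      rw [mem_range] at hi
      unfold gT
      rw [if_pos (by omega), if_pos (by omega), gs_sub]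
      unfold ee
      ring
    rw [Finset.sum_congr rfl h2]
    have h3 : (gT (m + 1) m - gT (m + 1) (m + 1)) * aa m = ee m := by
      rw [gT_self]
      unfold gT ee
      rw [if_pos (by omega)]
      ring
    rw [h3]
    have h4 := ee_le_one m
    have h5 : 0 ≤ ee m / (3 * ((m:ℝ) + 1)) := by have := ee_pos m; positivity
    linarith

end Pool.Agent.Lib.MP_9cae81_pr
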